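import Pool.Agent.T2h77W.Defs

/-!
# Integrality: small violations of the Ramanujan bound do not occur in bounded degree

If the eigenvalue `q (1 + q ^ (2 τ) + q ^ (- 2 τ))` is an algebraic integer of degree at most `D` whose conjugates are
bounded by `q ^ 2 + q + 1`, and `τ > 0`, then `τ ≥ 2 / (2 q) ^ (D + 1)`.
-/

set_option autoImplicit false

open NumberField MeasureTheory Polynomial
open scoped MatrixGroups

noncomputable section

namespace Pool.Agent.T2h77W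

open Pool.Agent.T2h77

/-- `z` is a root of a monic polynomial with integer coefficients, of degree at most `D`, all of whose complex
roots have absolute value at most `B`. -/
def SmallInt (D : ℕ) (B : ℝ) (z : ℂ) : Prop :=
  ∃ p : ℤ[X], p.Monic ∧ p.natDegree ≤ D ∧ aeval z p = 0 ∧ ∀ w : ℂ, aeval w p = 0 → ‖w‖ ≤ B

/-- a monic integer polynomial, all roots of absolute value at most `B`; a root `z` different from the integer
`a` has distance at least `(B + |a|) ^ (- (D - 1))` from `a`. -/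
theorem dist_root {D : ℕ} {B : ℝ} {z : ℂ} {a : ℤ} (h : SmallInt D B z) (hz : z ≠ a) (hB : 1 ≤ B + |(a : ℝ)|) :
    1 ≤ ‖(a : ℂ) - z‖ * (B + |(a : ℝ)|) ^ (D - 1) := by
  classical
  obtain ⟨p, hp, hD, hpz, hpw⟩ := h
  obtain ⟨r, hr, hdvd⟩ := exists_eq_pow_rootMultiplicity_mul_and_not_dvd p hp.ne_zero a
  set m := p.rootMultiplicity a
  have hmon : ((X - C a) ^ m : ℤ[X]).Monic := (monic_X_sub_C a).pow m
  have hrm : r.Monic := hmon.of_mul_monic_left (by rw [← hr]; exact hp)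
  have hrD : r.natDegree ≤ D := by
    have h1 : p.natDegree = ((X - C a) ^ m : ℤ[X]).natDegree + r.natDegree := by
      conv_lhs => rw [hr]
      exact hmon.natDegree_mul hrm
    omega
  have hrz : aeval z r = 0 := by
    rw [hr, map_mul, map_pow, map_sub, aeval_X, aeval_C] at hpz
    rcases mul_eq_zero.1 hpz with h1 | h1
    · exfalso
      have h2 : z - (algebraMap ℤ ℂ) a = 0 := by
        by_contra hne
        exact pow_ne_zero _ hne h1
      apply hz
      rw [sub_eq_zero] at h2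
      simpa using h2
    · exact h1
  have hra : r.eval a ≠ 0 := by
    intro h0
    exact hdvd (dvd_iff_isRoot.2 h0)
  have h1 : (1 : ℝ) ≤ ‖((r.eval a : ℤ) : ℂ)‖ := by
    rw [Complex.norm_intCast]
    exact_mod_cast Int.one_le_abs hra
  set R := r.map (algebraMap ℤ ℂ) with hR
  have hRm : R.Monic := hrm.map _
  have hRs : R.Splits := IsAlgClosed.splits R
  have h2 : R.eval (a : ℂ) = ((r.eval a : ℤ) : ℂ) := by
    rw [hR, eval_map_algebraMap]
    have := aeval_algebraMap_apply ℂ a r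
    simpa using this
  have h3 : R.eval (a : ℂ) = (R.roots.map fun w => (a : ℂ) - w).prod :=
    hRs.eval_eq_prod_roots_of_monic hRm _
  have hzR : z ∈ R.roots := by
    rw [mem_roots hRm.ne_zero, IsRoot.def, hR, eval_map_algebraMap]
    exact hrz
  obtain ⟨t, ht⟩ := Multiset.exists_cons_of_mem hzR
  have hcard : Multiset.card t + 1 ≤ D := by
    have h4 : Multiset.card R.roots ≤ R.natDegree := R.card_roots'
    have h5 : R.natDegree = r.natDegree := hrm.natDegree_map _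
    rw [ht, Multiset.card_cons] at h4
    omega
  have hroot : ∀ w ∈ t, ‖(a : ℂ) - w‖ ≤ B + |(a : ℝ)| := by
    intro w hw
    have hw' : w ∈ R.roots := by rw [ht]; exact Multiset.mem_cons_of_mem hw
    have h6 : aeval w r = 0 := by
      rw [mem_roots hRm.ne_zero, IsRoot.def, hR, eval_map_algebraMap] at hw'
      exact hw'
    have h7 : aeval w p = 0 := by rw [hr, map_mul, h6, mul_zero]
    have h8 := hpw w h7
    calc ‖(a : ℂ) - w‖ ≤ ‖(a : ℂ)‖ + ‖w‖ := norm_sub_le _ _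
      _ ≤ _ := by rw [Complex.norm_intCast]; linarith
  have hprod : ∀ s : Multiset ℂ, (∀ w ∈ s, ‖(a : ℂ) - w‖ ≤ B + |(a : ℝ)|) →
      ‖(s.map fun w => (a : ℂ) - w).prod‖ ≤ (B + |(a : ℝ)|) ^ Multiset.card s := by
    intro s
    induction s using Multiset.induction_on with
    | empty => intro _; simp
    | cons w s ih =>
      intro hs
      rw [Multiset.map_cons, Multiset.prod_cons, norm_mul, Multiset.card_cons, pow_succ, mul_comm]
      exact mul_le_mul (ih fun w' hw' => hs w' (Multiset.mem_cons_of_mem hw'))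
        (hs w (Multiset.mem_cons_self w s)) (norm_nonneg _) (by positivity)
  rw [← h2, h3, ht, Multiset.map_cons, Multiset.prod_cons, norm_mul] at h1
  calc (1 : ℝ) ≤ _ := h1
    _ ≤ ‖(a : ℂ) - z‖ * (B + |(a : ℝ)|) ^ Multiset.card t :=
        mul_le_mul_of_nonneg_left (hprod t hroot) (norm_nonneg _)
    _ ≤ _ := mul_le_mul_of_nonneg_left (pow_le_pow_right₀ hB (by omega)) (norm_nonneg _)

theorem hev_one {q τ : ℝ} (hq : 0 < q) :
    hev q 1 τ = 3 * q + q * (q ^ τ - q ^ (-τ)) ^ 2 := by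
  have h1 : q ^ τ * q ^ (-τ) = 1 := by rw [← Real.rpow_add hq]; simp
  have h2 : q ^ (2 * τ) = (q ^ τ) ^ 2 := by rw [mul_comm, Real.rpow_mul hq.le]; norm_num
  have h3 : q ^ (-(2 * τ)) = (q ^ (-τ)) ^ 2 := by
    rw [show -(2 * τ) = (-τ) * 2 by ring, Real.rpow_mul hq.le]; norm_num
  unfold hev
  simp only [Finset.sum_range_succ, Finset.sum_range_zero, pow_one, Nat.cast_zero, Nat.cast_one,
    zero_add]
  rw [show 2 * ((0 : ℝ) - 1) * τ = -(2 * τ) by ring, show 2 * ((1 : ℝ) - 1) * τ = 0 by ring,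
    show 2 * (((2 * 1 : ℕ) : ℝ) - 1) * τ = 2 * τ by push_cast; ring, Real.rpow_zero, h2, h3]
  linear_combination (2 * q) * h1

theorem gap_real {q τ : ℝ} (hq : 2 ≤ q) (h0 : 0 < τ) (h1 : τ ≤ 1 / 2) :
    q * (q ^ τ - q ^ (-τ)) ^ 2 ≤ 4 * τ ^ 2 * q ^ 4 := by
  have hq0 : 0 < q := by linarith
  have hlog0 : 0 ≤ Real.log q := Real.log_nonneg (by linarith)
  have hlog : Real.log q ≤ q := (Real.log_le_sub_one_of_pos hq0).trans (by linarith)
  set u := τ * Real.log q with hu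
  have hu0 : 0 ≤ u := mul_nonneg h0.le hlog0
  have e1 : q ^ τ = Real.exp u := by rw [Real.rpow_def_of_pos hq0, mul_comm]
  have e2 : q ^ (-τ) = Real.exp (-u) := by rw [Real.rpow_def_of_pos hq0]; congr 1; rw [hu]; ring
  have h2 : Real.exp u - Real.exp (-u) ≤ 2 * u * Real.exp u := by
    have h3 : 1 - 2 * u ≤ Real.exp (-(2 * u)) := Real.one_sub_le_exp_neg _
    have h4 : Real.exp (-u) = Real.exp u * Real.exp (-(2 * u)) := by
      rw [← Real.exp_add]; congr 1; ring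
    have h5 := mul_le_mul_of_nonneg_left h3 (Real.exp_pos u).le
    rw [h4]
    linarith
  have h3 : 0 ≤ Real.exp u - Real.exp (-u) := by
    have := Real.exp_le_exp.2 (show -u ≤ u by linarith)
    linarith
  have h4 : Real.exp u ^ 2 ≤ q := by
    rw [← e1, ← Real.rpow_natCast, ← Real.rpow_mul hq0.le]
    calc q ^ (τ * (2 : ℕ)) ≤ q ^ (1 : ℝ) := by
          apply Real.rpow_le_rpow_of_exponent_le (by linarith)
          push_cast
          linarith
      _ = q := Real.rpow_one q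
  have h5 : u ≤ τ * q := mul_le_mul_of_nonneg_left hlog h0.le
  have h6 : u ^ 2 ≤ (τ * q) ^ 2 := pow_le_pow_left₀ hu0 h5 2
  rw [e1, e2]
  calc q * (Real.exp u - Real.exp (-u)) ^ 2 ≤ q * (2 * u * Real.exp u) ^ 2 :=
        mul_le_mul_of_nonneg_left (pow_le_pow_left₀ h3 h2 2) hq0.le
    _ = 4 * q * (u ^ 2 * Real.exp u ^ 2) := by ring
    _ ≤ 4 * q * ((τ * q) ^ 2 * q) := by
        refine mul_le_mul_of_nonneg_left ?_ (by linarith)
        exact mul_le_mul h6 h4 (by positivity) (by positivity)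
    _ = 4 * τ ^ 2 * q ^ 4 := by ring

/-- **The gap.** -/
theorem gap {D q : ℕ} {τ : ℝ} (hq : 2 ≤ q) (h0 : 0 < τ) (h1 : τ ≤ 1 / 2)
    (hS : SmallInt D ((q : ℝ) ^ 2 + q + 1) (hev q 1 τ : ℂ)) :
    2 / (2 * (q : ℝ)) ^ (D + 1) ≤ τ := by
  have hq' : (2 : ℝ) ≤ q := by exact_mod_cast hq
  have hq0 : (0 : ℝ) < q := by linarith
  have hh := hev_one (q := (q : ℝ)) (τ := τ) hq0
  have hpos : 0 < (q : ℝ) ^ τ - (q : ℝ) ^ (-τ) := by
    have := Real.rpow_lt_rpow_of_exponent_lt (show (1 : ℝ) < q by linarith) (show -τ < τ by linarith)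
    linarith
  have hD : 1 ≤ D := by
    obtain ⟨p, hp, hpD, hpz, -⟩ := hS
    by_contra hlt
    have hp0 : p.natDegree = 0 := by omega
    have hp1 : p = 1 := by
      have := eq_C_of_natDegree_eq_zero hp0
      have h2 : p.leadingCoeff = 1 := hp
      rw [leadingCoeff, hp0] at h2
      rw [this, h2, map_one]
    rw [hp1, map_one] at hpz
    exact one_ne_zero hpz
  have hne : (hev (q : ℝ) 1 τ : ℂ) ≠ ((3 * q : ℤ) : ℂ) := by
    intro he
    have h2 : hev (q : ℝ) 1 τ = ((3 * q : ℤ) : ℝ) := by exact_mod_cast he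
    rw [hh] at h2
    push_cast at h2
    have : 0 < (q : ℝ) * ((q : ℝ) ^ τ - (q : ℝ) ^ (-τ)) ^ 2 := by positivity
    linarith
  have habs : |((3 * q : ℤ) : ℝ)| = 3 * q := by
    push_cast
    exact abs_of_nonneg (by linarith)
  have hd := dist_root hS hne (by rw [habs]; nlinarith)
  rw [habs] at hd
  have hnorm : ‖((3 * q : ℤ) : ℂ) - (hev (q : ℝ) 1 τ : ℂ)‖ = q * ((q : ℝ) ^ τ - (q : ℝ) ^ (-τ)) ^ 2 := by
    have h2 : ((3 * q : ℤ) : ℂ) - (hev (q : ℝ) 1 τ : ℂ) =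
        ((-(q * ((q : ℝ) ^ τ - (q : ℝ) ^ (-τ)) ^ 2) : ℝ) : ℂ) := by
      rw [hh]
      push_cast
      ring
    rw [h2, Complex.norm_real, Real.norm_eq_abs, abs_neg]
    exact abs_of_nonneg (by positivity)
  rw [hnorm] at hd
  have h2 : (q : ℝ) ^ 2 + q + 1 + 3 * q ≤ (2 * (q : ℝ)) ^ 2 := by nlinarith
  have h3 : ((q : ℝ) ^ 2 + q + 1 + 3 * q) ^ (D - 1) ≤ ((2 * (q : ℝ)) ^ 2) ^ (D - 1) :=
    pow_le_pow_left₀ (by positivity) h2 _
  have h4 : (1 : ℝ) ≤ 4 * τ ^ 2 * q ^ 4 * ((2 * (q : ℝ)) ^ 2) ^ (D - 1) :=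
    hd.trans (mul_le_mul (gap_real hq' h0 h1) h3 (by positivity) (by positivity))
  have h5 : 4 * τ ^ 2 * (q : ℝ) ^ 4 * ((2 * (q : ℝ)) ^ 2) ^ (D - 1) =
      (τ * (2 * (q : ℝ)) ^ (D + 1) / 2) ^ 2 := by
    obtain ⟨e, rfl⟩ : ∃ e, D = e + 1 := ⟨D - 1, by omega⟩
    have e1 : ((2 * (q : ℝ)) ^ 2) ^ e = ((2 * (q : ℝ)) ^ e) ^ 2 := by
      rw [← pow_mul, ← pow_mul, mul_comm 2 e]
    rw [Nat.add_sub_cancel, e1]
    ring
  rw [h5] at h4
  have h6 : 1 ≤ τ * (2 * (q : ℝ)) ^ (D + 1) / 2 := by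
    have h7 : 0 ≤ τ * (2 * (q : ℝ)) ^ (D + 1) / 2 := by positivity
    nlinarith
  rw [div_le_iff₀ (by positivity)]
  linarith

variable {K : Type} [Field K] [NumberField K]

/-- The system of eigenvalues violates the Ramanujan bound (by however little) at some prime `P`, not dividing `𝔫`
and of norm `q ≤ X`: it has the Satake parameters `q ^ τ` and `q ^ (- τ)` with `0 < τ ≤ 1 / 2`; and the eigenvalue
`c P 1 = q (1 + q ^ (2 τ) + q ^ (- 2 τ))` of the Hecke operator of degree `q ^ 2 + q + 1` is an algebraic integer of degree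
at most `D`, whose conjugates are bounded by this degree. -/
def ViolatesDeg (𝔫 : Ideal (𝓞 K)) (X : ℝ) (D : ℕ) (c : Ideal (𝓞 K) → ℕ → ℂ) : Prop :=
  ∃ (P : Ideal (𝓞 K)) (τ : ℝ), Good 𝔫 P ∧ (Ideal.absNorm P : ℝ) ≤ X ∧ 0 < τ ∧ τ ≤ 1 / 2 ∧
    (∀ k, c P k = (hev (Ideal.absNorm P) k τ : ℂ)) ∧
    SmallInt D ((Ideal.absNorm P : ℝ) ^ 2 + Ideal.absNorm P + 1) (c P 1)

theorem ViolatesDeg.violates {𝔫 : Ideal (𝓞 K)} {X : ℝ} {D : ℕ} {c : Ideal (𝓞 K) → ℕ → ℂ}
    (h : ViolatesDeg 𝔫 X D c) : Violates 𝔫 X (2 / (2 * X) ^ (D + 1)) c := by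
  obtain ⟨P, τ, hg, hX, h0, h1, hc, hS⟩ := h
  have h2 : 2 ≤ Ideal.absNorm P := by
    have a1 : Ideal.absNorm P ≠ 0 := fun h => hg.2.1 (Ideal.absNorm_eq_zero_iff.1 h)
    have a2 : Ideal.absNorm P ≠ 1 := fun h => hg.1.ne_top (Ideal.absNorm_eq_one_iff.1 h)
    omega
  refine ⟨P, τ, hg, hX, ?_, h1, hc⟩
  rw [hc 1] at hS
  have h3 := gap h2 h0 h1 hS
  have h4 : (2 : ℝ) ≤ Ideal.absNorm P := by exact_mod_cast h2
  refine le_trans ?_ h3
  exact div_le_div_of_nonneg_left (by norm_num) (by positivity)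
    (pow_le_pow_left₀ (by positivity) (by linarith) _)

end Pool.Agent.T2h77W
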