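import Pool.Agent.T2h77W.Stm
import Pool.Agent.T2h77V.Fin
import Pool.Agent.T2h77V.Box
import Pool.Agent.T2h77V.Fac
import Pool.Agent.T2h77V.Pts
import Pool.Agent.T2h77V.Cnt
import Pool.Agent.T2h77V.IDL
import Pool.Agent.T2h77V.RED
import Pool.Agent.T2h77V.VOL
import Pool.Agent.T2h77.Div
import Pool.Agent.T2h77.VolA

/-!
# The density theorem for all small primes at once
-/

set_option autoImplicit false

open NumberField MeasureTheory
open scoped MatrixGroups

namespace Pool.Agent.T2h77W

open Pool.Agent.T2h77 Pool.Agent.T2h74 Pool.Agent.T2h77V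

theorem allP : S_all := by
  intro K _ _
  exact allPrimes sdiv K (udensityT_of unimod (ured uideal) uvol (ucount (upoints ubox (ufac sdiv))) K)

end Pool.Agent.T2h77W
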