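import Pool.Agent.T2h77.DefsB
import Pool.Agent.T2h77.Cnt5
import Pool.Agent.T2h74.TY1

/-!
# Systems of Hecke eigenvalues of principal level: definitions

`K` is a number field with the ring of integers `𝓞`, `𝔫 ≠ 0` an ideal of `𝓞`.
-/

set_option autoImplicit false

open NumberField MeasureTheory
open scoped MatrixGroups

noncomputable section

namespace Pool.Agent.T2h77W

open Pool.Agent.T2h77 Pool.Agent.T2h77.Cnt Pool.Agent.T2h74

variable {K : Type} [Field K] [NumberField K]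

/-- The principal congruence subgroup of level `𝔫` of `SL₂(𝓞)`. -/
def GaN (𝔫 : Ideal (𝓞 K)) : Subgroup SL(2, 𝓞 K) :=
  (Matrix.SpecialLinearGroup.map (n := Fin 2) (Ideal.Quotient.mk 𝔫)).ker

/-- `x` is in `𝔫[1/P]`, the union of the fractional ideals `P ^ (- k) 𝔫`. -/
def InFr (P 𝔫 : Ideal (𝓞 K)) (x : K) : Prop := ∃ k, x ∈ Fr P k 𝔫

theorem InFr.add {P 𝔫 : Ideal (𝓞 K)} {x y : K} (hx : InFr P 𝔫 x) (hy : InFr P 𝔫 y) : InFr P 𝔫 (x + y) := by
  obtain ⟨k, hk⟩ := hx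
  obtain ⟨l, hl⟩ := hy
  exact ⟨max k l, Fr_add (Fr_mono (le_max_left k l) le_rfl hk) (Fr_mono (le_max_right k l) le_rfl hl)⟩

theorem InFr.neg {P 𝔫 : Ideal (𝓞 K)} {x : K} (hx : InFr P 𝔫 x) : InFr P 𝔫 (-x) := by
  obtain ⟨k, hk⟩ := hx
  exact ⟨k, Fr_neg hk⟩

theorem InFr.mul {P 𝔫 : Ideal (𝓞 K)} {x y : K} (hx : InFr P 𝔫 x) (hy : InFr P 𝔫 y) : InFr P 𝔫 (x * y) := by
  obtain ⟨k, hk⟩ := hx
  obtain ⟨l, hl⟩ := hy
  exact ⟨k + l, Fr_mono le_rfl Ideal.mul_le_left (Fr_mul hk hl)⟩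

/-- The principal congruence subgroup of level `𝔫` of `SL₂(𝓞[1/P])`: the matrices congruent to `1` modulo
`𝔫[1/P]`. -/
def GaP (P 𝔫 : Ideal (𝓞 K)) : Subgroup SL(2, K) where
  carrier := {γ | ∀ i j, InFr P 𝔫 (γ i j - (1 : Matrix (Fin 2) (Fin 2) K) i j)}
  one_mem' := by
    intro i j
    refine ⟨0, ?_⟩
    have : (1 : SL(2, K)) i j - (1 : Matrix (Fin 2) (Fin 2) K) i j = 0 := sub_self _
    rw [this]
    exact Fr_zero
  mul_mem' := by
    intro a b ha hb i j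
    have e : (a * b : SL(2, K)) i j - (1 : Matrix (Fin 2) (Fin 2) K) i j =
        (a i 0 - (1 : Matrix (Fin 2) (Fin 2) K) i 0) * (b 0 j - (1 : Matrix (Fin 2) (Fin 2) K) 0 j) +
        (a i 1 - (1 : Matrix (Fin 2) (Fin 2) K) i 1) * (b 1 j - (1 : Matrix (Fin 2) (Fin 2) K) 1 j) +
        (a i j - (1 : Matrix (Fin 2) (Fin 2) K) i j) + (b i j - (1 : Matrix (Fin 2) (Fin 2) K) i j) := by
      rw [Matrix.SpecialLinearGroup.coe_mul, Matrix.mul_apply, Fin.sum_univ_two]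
      fin_cases i <;> fin_cases j <;> simp [Matrix.one_apply] <;> ring
    rw [e]
    exact InFr.add (InFr.add (InFr.add (InFr.mul (ha i 0) (hb 0 j)) (InFr.mul (ha i 1) (hb 1 j)))
      (ha i j)) (hb i j)
  inv_mem' := by
    intro a ha i j
    have h : (a⁻¹ : SL(2, K)) i j = (a : Matrix (Fin 2) (Fin 2) K).adjugate i j := by
      rw [Matrix.SpecialLinearGroup.coe_inv]
    rw [h, Matrix.adjugate_fin_two]
    fin_cases i <;> fin_cases j
    · simpa using ha 1 1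
    · simpa using InFr.neg (ha 0 1)
    · simpa using InFr.neg (ha 1 0)
    · simpa using ha 0 0

/-- `f` is an eigenfunction of the Hecke operators at `P` attached to `Γ`, with the eigenvalues `c k`. The
operator for `k` is the sum over all `γ` in `Γ` with entries in `P ^ (- k)`, modulo `Γ ∩ SL₂(𝓞)`. -/
def IsEig (P : Ideal (𝓞 K)) (Γ : Subgroup SL(2, K)) (c : ℕ → ℂ) (f : GG K → ℂ) : Prop :=
  ∀ (k : ℕ) (s : Finset SL(2, K)), IsRepSet P Γ k s → ∀ g : GG K, ∑ η ∈ s, f (jo K η * g) = c k * f g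

/-- `P` is a prime which does not divide `𝔫`. -/
def Good (𝔫 P : Ideal (𝓞 K)) : Prop := P.IsPrime ∧ P ≠ ⊥ ∧ ¬ 𝔫 ≤ P

/-- `f` is an automorphic function of level `𝔫` with the weights `N`, `σ` and the parameters `ν` at the infinite
places, square integrable modulo `SL₂(𝓞)` together with its translates (`𝓕` is a fundamental domain for
`SL₂(𝓞)`); that is, it is square integrable modulo the principal congruence subgroup. -/
def IsForm (𝔫 : Ideal (𝓞 K)) (𝓕 : Set (GG K)) (N : InfinitePlace K → ℕ) (σ : InfinitePlace K → ℤˣ)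
    (ν : InfinitePlace K → ℂ) (f : GG K → ℂ) : Prop :=
  Continuous f ∧ (∀ γ ∈ GaN 𝔫, ∀ g, f (lm γ g) = f g) ∧ HasType N σ ν f ∧
    ∀ γ : SL(2, 𝓞 K), IsL2 𝓕 fun g => f (lm γ g)

/-- `f` is an eigenfunction of the Hecke operators at all primes `P` not dividing `𝔫`, with the eigenvalues
`c P k`. -/
def IsSystem (𝔫 : Ideal (𝓞 K)) (c : Ideal (𝓞 K) → ℕ → ℂ) (f : GG K → ℂ) : Prop :=
  ∀ P, Good 𝔫 P → IsEig P (GaP P 𝔫) (c P) f

/-- The two systems of Hecke eigenvalues are different. -/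
def Distinct (𝔫 : Ideal (𝓞 K)) (c c' : Ideal (𝓞 K) → ℕ → ℂ) : Prop :=
  ∃ (P : Ideal (𝓞 K)) (k : ℕ) (s : Finset SL(2, K)), Good 𝔫 P ∧ IsRepSet P (GaP P 𝔫) k s ∧ c P k ≠ c' P k

/-- The system of eigenvalues has at some prime `P`, not dividing `𝔫` and of norm `q ≤ X`, the Satake parameters
`q ^ τ` and `q ^ (- τ)`, for some `τ` between `s` and `1 / 2`. -/
def Violates (𝔫 : Ideal (𝓞 K)) (X s : ℝ) (c : Ideal (𝓞 K) → ℕ → ℂ) : Prop :=
  ∃ (P : Ideal (𝓞 K)) (τ : ℝ), Good 𝔫 P ∧ (Ideal.absNorm P : ℝ) ≤ X ∧ s ≤ τ ∧ τ ≤ 1 / 2 ∧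
    ∀ k, c P k = (hev (Ideal.absNorm P) k τ : ℂ)

end Pool.Agent.T2h77W
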