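import Pool.Agent.T2h77W.Defs

/-!
# Systems of Hecke eigenvalues of principal level: statements of the steps

Plan. Let `f` be a form of level `𝔫` with a system `c` of Hecke eigenvalues. The translates `f(γ g)`, `γ ∈ SL₂(𝓞)`,
span a finite dimensional representation `Sp f` of the finite group `SL₂(𝓞/𝔫)`, all elements of which are forms
of level `𝔫` with the same system. An irreducible constituent `W` of exact level `m ∣ 𝔫` has dimension at least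
`N(m) ^ (1 - ε)` (REP). So a system of exact level `m` contributes `N(m) ^ (1 - ε)` linearly independent forms for
`Γ(m)` to the density theorem `MP_4819b8_nt.DensityAllPrimes` (index `N(m) ^ 3`): this gives the bound
`N(m) ^ (3 - 6 s + ε) / N(m) ^ (1 - ε)` for the number of the systems with a parameter `≥ s`.

All constants depend only on what is quantified before them.
-/

set_option autoImplicit false

open NumberField MeasureTheory
open scoped MatrixGroups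

noncomputable section

namespace Pool.Agent.T2h77W

open Pool.Agent.T2h77 Pool.Agent.T2h74

variable {K : Type} [Field K] [NumberField K]

/-- the span of the translates of `f` under `SL₂(𝓞)` -/
def Sp (f : GG K → ℂ) : Submodule ℂ (GG K → ℂ) :=
  Submodule.span ℂ (Set.range fun (γ : SL(2, 𝓞 K)) (g : GG K) => f (lm γ g))

/-! ### Representations of `SL₂` of a finite ring -/

/-- PRM: an irreducible representation of `SL₂(A)` which is nontrivial on every relative congruence subgroup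
contains a character of the unipotent group `{nU x}` nontrivial on all minimal ideals at once.

Proof (tools: `Pool.Agent.T2h77.Ind.crt`, `.conj_congr`, `.nU_mul`, `.nU_zero`, `.nU_inv` in
`Pool/Agent/T2h77/Index.lean`, and `gen : S_gen` in `Pool/Agent/T2h77/Gen.lean`).
For `P` in `MaximalSpectrum A` (a finite type) with `ann P := Submodule.annihilator P.asIdeal ≠ ⊥` let
`Fix_P = {w | ∀ x ∈ ann P, ρ (nU x) w = w}` and let `e_P = 1 - (1 / |ann P|) ∑_{x ∈ ann P} ρ (nU x)`, an endomorphism of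
`W` with `ker e_P = Fix_P`, `e_P ∘ e_P = e_P`; all `e_P` and `ρ (nU y)` commute.
(1) For every `w ≠ 0` and `P` there is `g` with `ρ g w ∉ Fix_P`: otherwise `U = {w | ∀ g, ρ g w ∈ Fix_P}` is an
invariant subspace `≠ ⊥`, so `U = ⊤` and then `ρ (g * nU x * g⁻¹) = 1` for all `g` and `x ∈ ann P`, so
`(rd (ann P)).ker ≤ ker ρ` by `gen` (with `H = ρ.ker`; `ρ` goes to a monoid, use `{g | ρ g = 1}` as a subgroup),
contrary to the hypothesis.
(2) `ρ g w ∉ Fix_P` iff `w` is moved by `g⁻¹ nU x g` for some `x ∈ ann P`; by `conj_congr` this conjugate depends only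
on `g⁻¹` (so on `g`) modulo `P`. By `crt` we may take `g ≡ 1` modulo all other maximal ideals `Q`; then `ρ g`
commutes with `ρ (nU x)`, `x ∈ ann Q` (again `conj_congr` with `g' = 1`), so with `e_Q`.
(3) Induction over the finite set `S` of the `P`: there is `w ≠ 0` with `e_P w = w` for all `P ∈ S`. (Step: given `w` for
`S` and `P ∉ S`, take `g` of (2) and `w' = e_P (ρ g w) ≠ 0`; it is fixed by `e_P`, and by `e_Q`, `Q ∈ S`, as `e_Q`
commutes with `e_P` and `ρ g`.)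
(4) `W' = {w | ∀ P, e_P w = w}` is invariant under the commuting operators `ρ (nU x)`, which have finite order:
take a joint eigenvector `w₀ ≠ 0` in `W'`. (Concretely: `w = ∑_ψ π_ψ w` over the characters `ψ : AddChar A ℂ`, with
`π_ψ = (1 / |A|) ∑_x ψ(-x) ρ (nU x)`; some `π_ψ w ≠ 0`; it is in `W'`; sum of all characters at `x`:
`AddChar.sum_apply_eq_ite` or similar. Or simultaneous diagonalisation.) If `ψ` were trivial on `ann P` then
`e_P w₀ = 0 ≠ w₀`. -/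
def S_prm : Prop :=
  ∀ (A : Type) [CommRing A] [Finite A] (W : Type) [AddCommGroup W] [Module ℂ W]
    [FiniteDimensional ℂ W] (ρ : SL(2, A) →* (W →ₗ[ℂ] W)), Nontrivial W →
    (∀ U : Submodule ℂ W, (∀ g, ∀ u ∈ U, ρ g u ∈ U) → U = ⊥ ∨ U = ⊤) →
    (∀ T : Ideal A, T ≠ ⊥ → ∃ g ∈ (rd T).ker, ρ g ≠ 1) →
    ∃ (ψ : AddChar A ℂ) (w : W), w ≠ 0 ∧ (∀ x : A, ρ (nU x) w = ψ x • w) ∧
      ∀ P : MaximalSpectrum A, Submodule.annihilator P.asIdeal ≠ ⊥ → ∃ x ∈ Submodule.annihilator P.asIdeal, ψ x ≠ 1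

/-- ORB: the dimension is at least the number of the squares of units.

Proof. For a unit `u` let `w_u = ρ (tD u) w`. As `nU x * tD u = tD u * nU (u⁻² x)` (`Ind.tD_nU`), `w_u ≠ 0` satisfies
`ρ (nU x) w_u = ψ (u⁻² x) • w_u`. Eigenvectors with distinct characters are linearly independent
(see `Ind.card_le` for an analogous argument, or `Module.End` eigenvector independence, or induction; the joint
eigenvectors of a family of operators with pairwise distinct systems of eigenvalues are independent), so there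
are at most `finrank W` characters `ψ (u⁻² ·)`. If `ψ (u⁻² x) = ψ (v⁻² x)` for all `x`, the ideal
`J = {j | ∀ x, ψ (j x) = 1}` contains `u⁻² - v⁻²` and no `ann P ≠ ⊥`, so `J = ⊥` by `Ind.soc`, and `(u v⁻¹) ^ 2 = 1`.
So each character comes from at most `|{u : A // u ^ 2 = 1}|` units. -/
def S_orb : Prop :=
  ∀ (A : Type) [CommRing A] [Finite A] [IsPrincipalIdealRing A] (W : Type) [AddCommGroup W] [Module ℂ W]
    [FiniteDimensional ℂ W] (ρ : SL(2, A) →* (W →ₗ[ℂ] W)) (ψ : AddChar A ℂ) (w : W), w ≠ 0 →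
    (∀ x : A, ρ (nU x) w = ψ x • w) →
    (∀ P : MaximalSpectrum A, Submodule.annihilator P.asIdeal ≠ ⊥ →
      ∃ x ∈ Submodule.annihilator P.asIdeal, ψ x ≠ 1) →
    Nat.card Aˣ ≤ Nat.card {u : A // u ^ 2 = 1} * Module.finrank ℂ W

/-- IRR: a large piece of exact level.

Proof (from PRM, ORB). `SL₂(𝓞)` acts on functions by `(ρ γ φ)(g) = φ(γ⁻¹ g)`, `V` is invariant. Let `W ≤ V` be an
invariant subspace, `≠ ⊥`, of minimal dimension (so irreducible). Let `m` be an ideal of minimal `Ideal.absNorm` among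
the `m ≥ 𝔫` such that all `φ ∈ W` are invariant under `GaN m` (`𝔫` is one; all are `≠ ⊥`). Let `A = 𝓞 ⧸ m`, a finite
principal ideal ring (`Pool.Agent.T2h77.Cnt.pir` or `Psi.pir`; finite: `Ideal.finiteQuotientOfFreeOfNeBot`). By `surj : S_surj`
(`Pool/Agent/T2h77/Gen.lean`) `SL₂(𝓞) → SL₂(A)` is surjective, with kernel `GaN m` acting trivially on `W`: the
action of `SL₂(𝓞)` on `W` comes from `ρ : SL(2, A) →* (W →ₗ[ℂ] W)` (e.g. define `ρ g` by a chosen lift of `g`; the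
action does not depend on the lift). If `T ≠ ⊥` is an ideal of `A`, its preimage `m₁` in `𝓞` is strictly larger
than `m`, so `absNorm m₁ < absNorm m` (or: `absNorm m₁ ∣ absNorm m` and unequal), and some `φ ∈ W` is moved by
some `δ ∈ GaN m₁`, whose image is in `(rd T).ker`. Now PRM and ORB. -/
def S_irr : Prop :=
  ∀ (K : Type) [Field K] [NumberField K] (𝔫 : Ideal (𝓞 K)), 𝔫 ≠ ⊥ →
    ∀ V : Submodule ℂ (GG K → ℂ), FiniteDimensional ℂ V → V ≠ ⊥ →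
    (∀ γ : SL(2, 𝓞 K), ∀ φ ∈ V, (fun g => φ (lm γ g)) ∈ V) →
    (∀ γ ∈ GaN 𝔫, ∀ φ ∈ V, ∀ g, φ (lm γ g) = φ g) →
    ∃ (m : Ideal (𝓞 K)) (W : Submodule ℂ (GG K → ℂ)), 𝔫 ≤ m ∧ W ≤ V ∧
      (∀ γ ∈ GaN m, ∀ φ ∈ W, ∀ g, φ (lm γ g) = φ g) ∧
      Nat.card (𝓞 K ⧸ m)ˣ ≤ Nat.card {u : 𝓞 K ⧸ m // u ^ 2 = 1} * Module.finrank ℂ W

/-! ### The translates of a form -/

/-- VFI: the span of the translates is finite dimensional and invariant. Proof: `GaN 𝔫` is normal of finite index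
(a kernel of a homomorphism to the finite group `SL(2, 𝓞 ⧸ 𝔫)`), and `f (lm γ g)` only depends on the coset: if
`γ' = γ δ` with `δ` in `GaN 𝔫`, then `γ' = (γ δ γ⁻¹) γ` and `f (lm γ' g) = f (lm γ g)`. So the set of the translates is
finite. The other two by `Submodule.span_induction`. (`lm (γ * δ) g = lm γ (lm δ g)`.) -/
def S_vfi : Prop :=
  ∀ (K : Type) [Field K] [NumberField K] (𝔫 : Ideal (𝓞 K)), 𝔫 ≠ ⊥ → ∀ f : GG K → ℂ,
    (∀ γ ∈ GaN 𝔫, ∀ g, f (lm γ g) = f g) → FiniteDimensional ℂ (Sp f) ∧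
    (∀ γ : SL(2, 𝓞 K), ∀ φ ∈ Sp f, (fun g => φ (lm γ g)) ∈ Sp f) ∧
    ∀ γ ∈ GaN 𝔫, ∀ φ ∈ Sp f, ∀ g, φ (lm γ g) = φ g

/-- VFO: the elements of the span are forms. Proof: `Submodule.span_induction`. A translate `f (lm γ ·)` is continuous
(`lm γ` is a left multiplication), `GaN 𝔫`-invariant (VFI or directly, `GaN 𝔫` is normal), of the same type
(`lm γ (g * h) = lm γ g * h`: apply the hypothesis at `lm γ g`), and its translates are translates of `f`. Sums: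
`HasType` is linear, since `h ↦ Φ h * f (g * h)` is continuous with compact support, so integrable
(`Continuous.integrable_of_hasCompactSupport`; the measure `mu K` is a Haar measure), `MemLp.add`; scalars similarly. -/
def S_vfo : Prop :=
  ∀ (K : Type) [Field K] [NumberField K] (𝔫 : Ideal (𝓞 K)), 𝔫 ≠ ⊥ → ∀ (𝓕 : Set (GG K))
    (N : InfinitePlace K → ℕ) (σ : InfinitePlace K → ℤˣ) (ν : InfinitePlace K → ℂ) (f : GG K → ℂ),
    IsForm 𝔫 𝓕 N σ ν f → ∀ φ ∈ Sp f, IsForm 𝔫 𝓕 N σ ν φ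

/-- VSY: the elements of the span have the same system of eigenvalues. Proof: `Submodule.span_induction`; sums and
scalars are clear. Translates: let `s` be a `IsRepSet P (GaP P 𝔫) k` and `γ ∈ SL₂(𝓞)`, `γ' = oK K γ`. Then
`s' = {γ' η γ'⁻¹ | η ∈ s}` is one too: `GaP P 𝔫` is normalised by `γ'` (entries of `γ' (η - 1) γ'⁻¹` are sums of
products of entries of `η - 1` with integers: `InFr.add`, `Cnt.Fr_mul_left`), so is `Lk P k`; and
`LEqv (γ'⁻¹ β γ') η` iff `LEqv β (γ' η γ'⁻¹)`. As `jo K (oK K γ) = io K γ`: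
`∑_{η ∈ s} f (γ η g) = ∑_{η ∈ s} f (γ' η γ'⁻¹ (γ' g)) = ∑_{η' ∈ s'} f (η' (γ' g)) = c k f (γ' g)`. -/
def S_vsy : Prop :=
  ∀ (K : Type) [Field K] [NumberField K] (𝔫 : Ideal (𝓞 K)), 𝔫 ≠ ⊥ → ∀ (c : Ideal (𝓞 K) → ℕ → ℂ) (f : GG K → ℂ),
    IsSystem 𝔫 c f → ∀ φ ∈ Sp f, IsSystem 𝔫 c φ

/-! ### Changing the level -/

/-- CGP: the principal congruence subgroups of `SL₂(𝓞[1/P])`.

Proof. First part: all entries of `γ` are in `Fr P k ⊤` for a common `k` (the identity matrix has integral entries;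
`Cnt.Fr_mono`, `Cnt.Fr_add`, take the maximum of the four `k`); the second half of `IsCongrP` is the definition, with the
ideal `𝔫`. Second part: `P ⊔ 𝔫 = ⊤` (`P` is maximal and `¬ 𝔫 ≤ P`); if `x ∈ 𝓞` and `(x : K) ∈ Fr P k 𝔫` then `x ∈ 𝔫`
(`Cnt.Fr_coprime` with `k = 0`, as `(x : K) ∈ Fr P 0 ⊤`, then `a = 1`), and conversely (`Cnt.Fr_coe`). `ic` is the comap along
`oK K`; membership in `GaN 𝔫` entrywise: `Ind.mem_ker_iff` (in `Pool/Agent/T2h77/Index.lean`). -/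
def S_cgp : Prop :=
  ∀ (K : Type) [Field K] [NumberField K] (𝔫 P : Ideal (𝓞 K)), 𝔫 ≠ ⊥ → Good 𝔫 P →
    IsCongrP P (GaP P 𝔫) ∧ ic (GaP P 𝔫) = GaN 𝔫

/-- COS: Hecke eigenfunctions for level `𝔫` which are invariant under `GaN m` are Hecke eigenfunctions for level `m`.

Proof. Key step: for `η ∈ GLk P (GaP P m) k` there is `δ ∈ GaN m` with `oK K δ * η ∈ GLk P (GaP P 𝔫) k`. As `P ⊔ 𝔫 = ⊤`, there is
`a ∈ P ^ k` with `a - 1 ∈ 𝔫` (`Ideal.pow_sup_eq_top`). The matrix `a η` has entries `M i j` in `𝓞` (definition of `Lk`), and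
`det M = a ^ 2 ≡ 1` modulo `𝔫`; so `M` modulo `𝔫` is in `SL(2, 𝓞 ⧸ 𝔫)`, and by `surj : S_surj` there is `δ ∈ SL₂(𝓞)` whose
image is its inverse. `M ≡ 1` modulo `m`: `M i j - a 1_ij = a (η i j - 1_ij)` with `a ∈ P ^ k ⊆ 𝓞` and
`η i j - 1_ij ∈ Fr P l m`, `∈ Fr P k ⊤`, so in `Fr P k m` (`Cnt.Fr_coprime`; note `P ⊔ m = ⊤`), so `a (η i j - 1_ij) ∈ m`, and
`a ≡ 1` modulo `𝔫 ≤ m`. So `δ ≡ 1` modulo `m`. Let `x` be an entry of `δ η - 1`. Then `x ∈ Fr P k ⊤`, and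
`a x = (δ M)_ij - a 1_ij ≡ 0` modulo `𝔫`. For `b ∈ P ^ k`, `b x =: y ∈ 𝓞`, `a y = b (a x) ∈ 𝔫` and `a ≡ 1`, so
`y ∈ 𝔫`: so `x ∈ Fr P k 𝔫`.
Given a `IsRepSet P (GaP P m) k s`, choose `δ_η` for `η ∈ s`, and let `s' = {δ_η η | η ∈ s}`; it is a
`IsRepSet P (GaP P 𝔫) k` (`GaP P 𝔫 ≤ GaP P m`; `LEqv` is an equivalence relation and allows all `δ` in `SL₂(𝓞)`), and
`η ↦ δ_η η` is injective on `s`. So `∑_{η ∈ s} φ (η g) = ∑_{η ∈ s} φ (δ_η η g) = c k φ g`. (`jo K (oK K δ) = io K δ`.) -/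
def S_cos : Prop :=
  ∀ (K : Type) [Field K] [NumberField K] (𝔫 m P : Ideal (𝓞 K)), 𝔫 ≠ ⊥ → 𝔫 ≤ m → Good 𝔫 P →
    ∀ (c : ℕ → ℂ) (φ : GG K → ℂ), (∀ γ ∈ GaN m, ∀ g, φ (lm γ g) = φ g) →
    IsEig P (GaP P 𝔫) c φ → IsEig P (GaP P m) c φ

/-- FDM: fundamental domains of subgroups.

Proof. Let `R` be a finite set of representatives of the right cosets `Γ₀ r`, and `𝓕' = ⋃_{r ∈ R} {g | lm r⁻¹ g ∈ 𝓕}`.
Covering: for almost all `g` some `δ g ∈ 𝓕`; write `δ⁻¹ = γ r` with `γ ∈ Γ₀`, `r ∈ R`; then `r⁻¹ (γ⁻¹ g) = δ g ∈ 𝓕`, so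
`lm γ⁻¹ g ∈ 𝓕'`. Disjointness: `{g | g ∈ 𝓕' ∧ lm γ g ∈ 𝓕'}` is the union over `r, r' ∈ R` of the `g` with
`r⁻¹ g ∈ 𝓕` and `(r'⁻¹ γ r)(r⁻¹ g) ∈ 𝓕`, the preimage under the measure preserving map `lm r⁻¹` of a null set unless
`r'⁻¹ γ r = 1`, when `r' = γ r`, `r = r'` and `γ = 1`. `L²`: the restriction to `𝓕'` is at most the sum of the
restrictions to the sets `{g | lm r⁻¹ g ∈ 𝓕}`, the images of the restriction to `𝓕` under the measure preserving map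
`lm r` (`MeasurePreserving`, `measurePreserving_mul_left`, `MemLp` and maps by measurable equivalences; a finite sum of
measures: `MemLp` with respect to a sum, or by the integral of the square of the norm). -/
def S_fdm : Prop :=
  ∀ (K : Type) [Field K] [NumberField K] (Γ₀ : Subgroup SL(2, 𝓞 K)), Γ₀.index ≠ 0 → ∀ 𝓕 : Set (GG K), IsFD ⊤ 𝓕 →
    ∃ 𝓕' : Set (GG K), IsFD Γ₀ 𝓕' ∧
      ∀ φ : GG K → ℂ, Continuous φ → (∀ γ : SL(2, 𝓞 K), IsL2 𝓕 fun g => φ (lm γ g)) → IsL2 𝓕' φ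

/-- IDX: the index of the principal congruence subgroup.

Proof. By `surj : S_surj` the index is the order of `SL(2, A)`, `A = 𝓞 ⧸ 𝔫` of order `N = absNorm 𝔫`. Lower bound: the map
`(u, x, y) ↦ nL x * tD u * nU y` from `Aˣ × A × A` is injective (entries `u`, `u y`, `x u`, ...). Upper bound: the map
`g ↦ first row` has image in the pairs, and each fibre has at most `N` elements: if `g, g'` have the first row
`(a, b)`, then `(c' - c, d' - d) = t (a, b)` with `t = c d' - c' d` or its negative (`a (d' - d) = b (c' - c)` and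
`1 = a d - b c`), so the fibre injects in `A` by `g' ↦ t`. -/
def S_idx : Prop :=
  ∀ (K : Type) [Field K] [NumberField K] (𝔫 : Ideal (𝓞 K)), 𝔫 ≠ ⊥ →
    Nat.card (𝓞 K ⧸ 𝔫)ˣ * Ideal.absNorm 𝔫 ^ 2 ≤ (GaN 𝔫).index ∧ (GaN 𝔫).index ≤ Ideal.absNorm 𝔫 ^ 3

/-! ### Linear algebra -/

/-- IND: bases of joint eigenspaces with distinct systems of eigenvalues are linearly independent together.

Proof. Show: if `∑_i w_i = 0` with `w_i ∈ W i`, then all `w_i = 0`, by induction on the number of the nonzero `w_i`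
(strong induction on the cardinality of the support): if `w_i ≠ 0`, the sum has another nonzero term `w_j`; with
`T`, `c` for `i ≠ j` apply `T - c i`: `∑_l (c l - c i) w_l = 0`, with `(c l - c i) • w_l ∈ W l`, fewer nonzero terms (the
`i`-th is now zero), so all `(c l - c i) w_l = 0`, but `c j ≠ c i`, so `w_j = 0`, a contradiction. Then for a relation
between the `b i j` group the terms with equal `i`. -/
def S_ind : Prop :=
  ∀ (E : Type) [AddCommGroup E] [Module ℂ E] (k : ℕ) (W : Fin k → Submodule ℂ E),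
    (∀ i j, i ≠ j → ∃ (T : E →ₗ[ℂ] E) (c : Fin k → ℂ), (∀ l, ∀ w ∈ W l, T w = c l • w) ∧ c i ≠ c j) →
    ∀ (d : Fin k → ℕ) (b : ∀ i, Fin (d i) → E), (∀ i, LinearIndependent ℂ (b i)) → (∀ i j, b i j ∈ W i) →
      LinearIndependent ℂ fun p : (i : Fin k) × Fin (d i) => b p.1 p.2

/-! ### The bound for one level -/

/-- ALL: the theorem `MP_4819b8_nt.DensityAllPrimes` (already proved: `Pool.Agent.T2h77W.allP` in `AllP.lean`). -/
def S_all : Prop :=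
  ∀ (K : Type) [Field K] [NumberField K],
    ∃ A : ℕ, ∀ (ε : ℝ) (L : ℕ), 0 < ε → ∃ C : ℝ, 0 < C ∧
      ∀ (Γ₀ : Subgroup SL(2, 𝓞 K)) (𝓕 : Set (GG K)), IsFD Γ₀ 𝓕 → ∀ X : ℝ, 1 ≤ X →
      ∀ (Γ : Ideal (𝓞 K) → Subgroup SL(2, K)) (k : ℕ) (P : Fin k → Ideal (𝓞 K))
        (N : Fin k → InfinitePlace K → ℕ) (σ : Fin k → InfinitePlace K → ℤˣ)
        (ν : Fin k → InfinitePlace K → ℂ) (τ : Fin k → ℝ) (f : Fin k → GG K → ℂ),
        (∀ i, (P i).IsPrime ∧ P i ≠ ⊥ ∧ (Ideal.absNorm (P i) : ℝ) ≤ X ∧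
          IsCongrP (P i) (Γ (P i)) ∧ ic (Γ (P i)) = Γ₀) →
        (∀ i, Continuous (f i) ∧ (∀ γ ∈ Γ₀, ∀ g, f i (lm γ g) = f i g) ∧
          HasType (N i) (σ i) (ν i) (f i) ∧ IsL2 𝓕 (f i) ∧ IsHeckeEigen (P i) (Γ (P i)) (τ i) (f i)) →
        (∀ i w, N i w ≤ L ∧ ‖ν i w‖ ≤ L) → (∀ i, ε ≤ τ i ∧ τ i ≤ 1 / 2) → LinearIndependent ℂ f →
        ∑ i, (Γ₀.index : ℝ) ^ (2 * τ i) ≤ C * X ^ A * (Γ₀.index : ℝ) ^ (1 + ε)

/-- LVL: the spaces of exact level `m`.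

Proof (from ALL, IND, FDM, CGP, COS, IDX). `m ≠ ⊥` as `𝔫 ≤ m`; `(GaN m).index ≠ 0` by IDX (`absNorm m ≥ 1`, a finite ring has a
unit). `𝓕'` from FDM for `GaN m`. Let `b i : Fin (finrank (W i)) → GG K → ℂ` be a basis of `W i` (coerced:
`Module.finBasis ℂ (W i)`). The family of all `b i j` is linearly independent by IND, with `T` the operator
`(T φ) g = ∑_{η ∈ s} φ (jo K η * g)` for the `P, k, s` of `Distinct 𝔫 (c i) (c j)`, and the eigenvalues `c l P k`. For each `i`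
choose `P_i` and use COS to see that `b i j` satisfies `IsEig P_i (GaP P_i m) (c i P_i)`, so `IsHeckeEigen P_i (GaP P_i m) (τ i)`.
`Good m P_i` (as `𝔫 ≤ m`), so CGP gives `IsCongrP` and `ic (GaP P_i m) = GaN m`. Apply ALL with `Γ = fun P => GaP P m` to the
family reindexed by `Fin (∑_i finrank (W i))` (`finSigmaFinEquiv` or `Fintype.equivFin`); the sum over the pairs `(i, j)`
is the left hand side. The constants `A`, `C` are those of ALL. -/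
def S_lvl : Prop :=
  ∀ (K : Type) [Field K] [NumberField K],
    ∃ A : ℕ, ∀ (ε : ℝ) (L : ℕ), 0 < ε → ∃ C : ℝ, 0 < C ∧
      ∀ (𝔫 m : Ideal (𝓞 K)), 𝔫 ≠ ⊥ → 𝔫 ≤ m → ∀ 𝓕 : Set (GG K), IsFD ⊤ 𝓕 → ∀ X : ℝ, 1 ≤ X →
      ∀ (k : ℕ) (N : Fin k → InfinitePlace K → ℕ) (σ : Fin k → InfinitePlace K → ℤˣ)
        (ν : Fin k → InfinitePlace K → ℂ) (τ : Fin k → ℝ) (c : Fin k → Ideal (𝓞 K) → ℕ → ℂ)
        (W : Fin k → Submodule ℂ (GG K → ℂ)),
        (∀ i, FiniteDimensional ℂ (W i)) →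
        (∀ i, ∀ φ ∈ W i, IsForm 𝔫 𝓕 (N i) (σ i) (ν i) φ ∧ IsSystem 𝔫 (c i) φ ∧
          ∀ γ ∈ GaN m, ∀ g, φ (lm γ g) = φ g) →
        (∀ i w, N i w ≤ L ∧ ‖ν i w‖ ≤ L) →
        (∀ i, ∃ P : Ideal (𝓞 K), Good 𝔫 P ∧ (Ideal.absNorm P : ℝ) ≤ X ∧
          ∀ l, c i P l = (hev (Ideal.absNorm P) l (τ i) : ℂ)) →
        (∀ i, ε ≤ τ i ∧ τ i ≤ 1 / 2) → (∀ i j, i ≠ j → Distinct 𝔫 (c i) (c j)) →
        ∑ i, (Module.finrank ℂ (W i) : ℝ) * ((GaN m).index : ℝ) ^ (2 * τ i) ≤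
          C * X ^ A * ((GaN m).index : ℝ) ^ (1 + ε)

/-- CNT: the numbers.

Proof. Let `N = absNorm m ≥ 1`, `U = card (𝓞 ⧸ m)ˣ`, `Q = card {u // u ^ 2 = 1}`, `I` the index. `sunit : S_unit` and `ssqrt : S_sqrt`
(`Pool/Agent/T2h77/Div.lean`) with `ε`: `N ≤ C₁ N ^ ε U`, `Q ≤ C₁ N ^ ε` (`C₁ ≥ 1`). IDX: `N ^ (3 - ε) ≤ C₁ I`, `1 ≤ I ≤ N ^ 3`.
So `d i ≥ U / Q ≥ N ^ (1 - 2 ε) / C₁ ^ 2`, `I ^ (2 τ i) ≥ I ^ (2 s) ≥ (N ^ (3 - ε) / C₁) ^ (2 s) ≥ N ^ (6 s - ε) / C₁` (as `2 s ≤ 2 / 3 ≤ 1`,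
for `ε ≤ 3`; for `ε > 3` use `I ^ (2 s) ≥ 1 ≥ N ^ (6 s - ε)`, as `6 s ≤ 2`), and the right hand side is at most
`B N ^ (3 + 3 ε)`. So `k ≤ C₁ ^ 3 B N ^ (2 - 6 s + 6 ε)`. -/
def S_cnt : Prop :=
  ∀ (K : Type) [Field K] [NumberField K] (ε : ℝ), 0 < ε → ∃ C : ℝ, 0 < C ∧
    ∀ (m : Ideal (𝓞 K)), m ≠ ⊥ → ∀ s : ℝ, 0 ≤ s → s ≤ 1 / 3 → ∀ (k : ℕ) (d : Fin k → ℕ) (τ : Fin k → ℝ) (B : ℝ),
      (∀ i, s ≤ τ i) → (∀ i, Nat.card (𝓞 K ⧸ m)ˣ ≤ Nat.card {u : 𝓞 K ⧸ m // u ^ 2 = 1} * d i) →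
      ∑ i, (d i : ℝ) * ((GaN m).index : ℝ) ^ (2 * τ i) ≤ B * ((GaN m).index : ℝ) ^ (1 + ε) →
      (k : ℝ) ≤ C * B * (Ideal.absNorm m : ℝ) ^ (2 - 6 * s + 6 * ε)

/-! ### The theorem -/

/-- The number of the systems of Hecke eigenvalues of principal level `𝔫`, with weights and parameters at the
infinite places bounded by `L`, which have a Satake parameter of size at least `q ^ s` at some prime of norm
`q ≤ X` not dividing `𝔫`, is at most `C X ^ A N(𝔫) ^ (2 - 6 s + ε)`. -/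
def S_main (K : Type) [Field K] [NumberField K] : Prop :=
  ∃ A : ℕ, ∀ (ε : ℝ) (L : ℕ), 0 < ε → ∃ C : ℝ, 0 < C ∧
    ∀ (𝔫 : Ideal (𝓞 K)), 𝔫 ≠ ⊥ → ∀ 𝓕 : Set (GG K), IsFD ⊤ 𝓕 → ∀ X s : ℝ, 1 ≤ X → ε ≤ s → s ≤ 1 / 3 →
    ∀ (k : ℕ) (N : Fin k → InfinitePlace K → ℕ) (σ : Fin k → InfinitePlace K → ℤˣ)
      (ν : Fin k → InfinitePlace K → ℂ) (c : Fin k → Ideal (𝓞 K) → ℕ → ℂ) (f : Fin k → GG K → ℂ),
      (∀ i, f i ≠ 0 ∧ IsForm 𝔫 𝓕 (N i) (σ i) (ν i) (f i) ∧ IsSystem 𝔫 (c i) (f i)) →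
      (∀ i w, N i w ≤ L ∧ ‖ν i w‖ ≤ L) → (∀ i, Violates 𝔫 X s (c i)) →
      (∀ i j, i ≠ j → Distinct 𝔫 (c i) (c j)) →
      (k : ℝ) ≤ C * X ^ A * (Ideal.absNorm 𝔫 : ℝ) ^ (2 - 6 * s + ε)

/-- ASM: the theorem.

Proof (from IRR, VFI, VFO, VSY, LVL, CNT and `sdiv : S_div`, `Pool/Agent/T2h77/Div.lean`). `A` from LVL. Given `ε`, `L` let
`ε₁ = min (ε / 7) (...)` small with `6 ε₁ + ε₁ ≤ ε`, `ε₁ ≤ ε`; constants from LVL (`ε₁`, `L`), CNT (`ε₁`), `S_div` (`ε₁`). For each `i`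
let `τ i` and `P_i` be those of `Violates`; `Sp (f i) ≠ ⊥` (it contains `f i`); IRR with VFI gives `m i` and `W i`, all of whose
elements are forms with the system `c i` (VFO, VSY), `W i` finite dimensional. For an ideal `m ≥ 𝔫` apply LVL and CNT
(with `B = C X ^ A`, `d i = finrank (W i)`) to the `i` with `m i = m` (reindexed by `Fin`): their number is at most
`C' X ^ A N(m) ^ (2 - 6 s + 6 ε₁) ≤ C' X ^ A N(𝔫) ^ (2 - 6 s + 6 ε₁)` (`N(m) ≤ N(𝔫)`, the exponent is `≥ 0` as `s ≤ 1 / 3`). The number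
of the `m ≥ 𝔫` is `Nat.card (Ideal (𝓞 K ⧸ 𝔫)) ≤ C'' N(𝔫) ^ ε₁` (map `m` to its image; `sum_parts` in `Pool/Agent/T2h77V/Grp.lean`
and `Pool/Agent/T2h77V/Fin.lean` do a similar grouping). -/
def S_asm : Prop :=
  S_irr → S_vfi → S_vfo → S_vsy → S_lvl → S_cnt → S_div → ∀ (K : Type) [Field K] [NumberField K], S_main K

end Pool.Agent.T2h77W
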