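import Pool.Agent.T2h77W.Stm
import Pool.Agent.T2h77V.Grp

/-!
# Systems of Hecke eigenvalues of principal level: the assembly
-/

set_option autoImplicit false

open NumberField MeasureTheory
open scoped MatrixGroups

noncomputable section

namespace Pool.Agent.T2h77W

open Pool.Agent.T2h77 Pool.Agent.T2h74

theorem mem_Sp {K : Type} [Field K] [NumberField K] (f : GG K → ℂ) : f ∈ Sp f := by
  refine Submodule.subset_span ⟨1, ?_⟩
  funext g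
  show f (lm 1 g) = f g
  unfold lm
  rw [map_one, one_mul]

theorem card_up {K : Type} [Field K] [NumberField K] (𝔫 : Ideal (𝓞 K)) (h𝔫 : 𝔫 ≠ ⊥)
    (s : Finset (Ideal (𝓞 K))) (hs : ∀ m ∈ s, 𝔫 ≤ m) : s.card ≤ Nat.card (Ideal (𝓞 K ⧸ 𝔫)) := by
  have : Finite (𝓞 K ⧸ 𝔫) := Ideal.finiteQuotientOfFreeOfNeBot 𝔫 h𝔫
  have : Finite (Ideal (𝓞 K ⧸ 𝔫)) := inferInstance
  have hcs : Nat.card s = s.card := by
    rw [Nat.card_eq_fintype_card, Fintype.card_coe]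
  rw [← hcs]
  refine Nat.card_le_card_of_injective
    (fun m : s => Ideal.map (Ideal.Quotient.mk 𝔫) m.1) ?_
  intro a b hab
  have key : ∀ c : s, (Ideal.map (Ideal.Quotient.mk 𝔫) c.1).comap (Ideal.Quotient.mk 𝔫) = c.1 := by
    intro c
    rw [Ideal.comap_map_of_surjective' _ Ideal.Quotient.mk_surjective, Ideal.mk_ker]
    exact sup_eq_left.2 (hs _ c.2)
  apply Subtype.ext
  rw [← key a, ← key b]
  exact congrArg (Ideal.comap (Ideal.Quotient.mk 𝔫)) hab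

theorem t_asm : S_asm := by
  classical
  intro hirr hvfi hvfo hvsy hlvl hcnt hdiv K _ _
  obtain ⟨A, hA⟩ := hlvl K
  refine ⟨A, fun ε L hε => ?_⟩
  have hε₁ : 0 < ε / 7 := by positivity
  obtain ⟨C₁, hC₁, h1⟩ := hA (ε / 7) L hε₁
  obtain ⟨C₂, hC₂, h2⟩ := hcnt K (ε / 7) hε₁
  obtain ⟨C₃, hC₃, h3⟩ := hdiv K (ε / 7) hε₁
  refine ⟨C₃ * (C₂ * C₁), by positivity, ?_⟩
  intro 𝔫 h𝔫 𝓕 h𝓕 X s hX hs hs3 k N σ ν c f hf hNν hviol hdist
  have hX0 : (0 : ℝ) < X := by linarith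
  have hex : ∀ i, ∃ (m : Ideal (𝓞 K)) (W : Submodule ℂ (GG K → ℂ)), 𝔫 ≤ m ∧ W ≤ Sp (f i) ∧
      (∀ γ ∈ GaN m, ∀ φ ∈ W, ∀ g, φ (lm γ g) = φ g) ∧
      Nat.card (𝓞 K ⧸ m)ˣ ≤ Nat.card {u : 𝓞 K ⧸ m // u ^ 2 = 1} * Module.finrank ℂ W := by
    intro i
    obtain ⟨ha, hb, hc⟩ := hvfi K 𝔫 h𝔫 (f i) (hf i).2.1.2.1
    refine hirr K 𝔫 h𝔫 (Sp (f i)) ha ?_ hb hc
    intro h
    have := mem_Sp (f i)
    rw [h, Submodule.mem_bot] at this
    exact (hf i).1 this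
  choose m W hm hW hinv hcard using hex
  choose P τ hP hPX hsτ hτ2 hc using hviol
  have hN1 : (1 : ℝ) ≤ Ideal.absNorm 𝔫 := by
    have : Ideal.absNorm 𝔫 ≠ 0 := by
      rw [Ne, Ideal.absNorm_eq_zero_iff]
      exact h𝔫
    exact_mod_cast Nat.one_le_iff_ne_zero.2 this
  have hexp : 0 ≤ 2 - 6 * s + 6 * (ε / 7) := by linarith
  have key := Pool.Agent.T2h77V.sum_parts m (fun _ => (1 : ℝ))
    (C₂ * (C₁ * X ^ A) * (Ideal.absNorm 𝔫 : ℝ) ^ (2 - 6 * s + 6 * (ε / 7))) (by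
      intro M e a he ha hex
      obtain ⟨i₀, hi₀⟩ := hex
      have hle : 𝔫 ≤ a := hi₀ ▸ hm i₀
      have ha0 : a ≠ ⊥ := by
        rintro rfl
        exact h𝔫 (le_bot_iff.1 hle)
      rw [Finset.sum_const, Finset.card_univ, Fintype.card_fin, nsmul_eq_mul, mul_one]
      have hfin : ∀ j, FiniteDimensional ℂ (W (e j)) := by
        intro j
        have h5 := (hvfi K 𝔫 h𝔫 (f (e j)) (hf (e j)).2.1.2.1).1
        exact Submodule.finiteDimensional_of_le (hW (e j))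
      have h6 := h1 𝔫 a h𝔫 hle 𝓕 h𝓕 X hX M (fun j => N (e j)) (fun j => σ (e j)) (fun j => ν (e j))
        (fun j => τ (e j)) (fun j => c (e j)) (fun j => W (e j)) hfin
        (fun j φ hφ => ⟨hvfo K 𝔫 h𝔫 𝓕 _ _ _ _ (hf (e j)).2.1 φ (hW _ hφ),
          hvsy K 𝔫 h𝔫 _ _ (hf (e j)).2.2 φ (hW _ hφ),
          fun γ hγ g => hinv (e j) γ (by rw [ha j]; exact hγ) φ hφ g⟩)
        (fun j w => hNν (e j) w) (fun j => ⟨P (e j), hP _, hPX _, hc _⟩)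
        (fun j => ⟨by linarith [hsτ (e j)], hτ2 _⟩)
        (fun i j hij => hdist _ _ fun h => hij (he h))
      have h7 := h2 a ha0 s (by linarith) hs3 M (fun j => Module.finrank ℂ (W (e j))) (fun j => τ (e j))
        (C₁ * X ^ A) (fun j => hsτ _) (fun j => by
          have h8 := hcard (e j)
          rw [ha j] at h8
          exact h8) h6
      refine h7.trans ?_
      have hle' : (Ideal.absNorm a : ℝ) ≤ Ideal.absNorm 𝔫 := by
        have h9 : Ideal.absNorm a ∣ Ideal.absNorm 𝔫 := Ideal.absNorm_dvd_absNorm_of_le hle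
        have h10 : 0 < Ideal.absNorm 𝔫 := by
          have : (0 : ℝ) < Ideal.absNorm 𝔫 := by linarith
          exact_mod_cast this
        exact_mod_cast Nat.le_of_dvd h10 h9
      gcongr)
  have hcount : ((Finset.univ.image m).card : ℝ) ≤ C₃ * (Ideal.absNorm 𝔫 : ℝ) ^ (ε / 7) := by
    refine le_trans ?_ (h3 𝔫 h𝔫)
    exact_mod_cast card_up 𝔫 h𝔫 _ (by
      intro a ha
      obtain ⟨i, -, rfl⟩ := Finset.mem_image.1 ha
      exact hm i)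
  rw [Finset.sum_const, Finset.card_univ, Fintype.card_fin, nsmul_eq_mul, mul_one] at key
  refine key.trans ?_
  have hB : 0 ≤ C₂ * (C₁ * X ^ A) * (Ideal.absNorm 𝔫 : ℝ) ^ (2 - 6 * s + 6 * (ε / 7)) := by positivity
  have hN0 : (0 : ℝ) < Ideal.absNorm 𝔫 := by linarith
  calc ((Finset.univ.image m).card : ℝ) *
        (C₂ * (C₁ * X ^ A) * (Ideal.absNorm 𝔫 : ℝ) ^ (2 - 6 * s + 6 * (ε / 7)))
      ≤ (C₃ * (Ideal.absNorm 𝔫 : ℝ) ^ (ε / 7)) *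
        (C₂ * (C₁ * X ^ A) * (Ideal.absNorm 𝔫 : ℝ) ^ (2 - 6 * s + 6 * (ε / 7))) := by gcongr
    _ = C₃ * (C₂ * C₁) * X ^ A *
        ((Ideal.absNorm 𝔫 : ℝ) ^ (ε / 7) * (Ideal.absNorm 𝔫 : ℝ) ^ (2 - 6 * s + 6 * (ε / 7))) := by ring
    _ = C₃ * (C₂ * C₁) * X ^ A * (Ideal.absNorm 𝔫 : ℝ) ^ (2 - 6 * s + ε) := by
        rw [← Real.rpow_add hN0]
        congr 2
        ring

end Pool.Agent.T2h77W
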