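import Pool.Agent.T2h77W.Stm

/-!
# CGP: the principal congruence subgroups of `SL₂(𝓞[1/P])`
-/

set_option autoImplicit false

open NumberField MeasureTheory
open scoped MatrixGroups

noncomputable section

namespace Pool.Agent.T2h77W

open Pool.Agent.T2h77 Pool.Agent.T2h77.Cnt Pool.Agent.T2h74

namespace CGP

variable {K : Type} [Field K] [NumberField K]

theorem one_coe (i j : Fin 2) : (((1 : Matrix (Fin 2) (Fin 2) (𝓞 K)) i j : 𝓞 K) : K) =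
    (1 : Matrix (Fin 2) (Fin 2) K) i j := by
  rw [Matrix.one_apply, Matrix.one_apply]
  split_ifs
  · exact cv_one
  · exact cv_zero

theorem sup_top {𝔫 P : Ideal (𝓞 K)} (hG : Good 𝔫 P) : P ⊔ 𝔫 = ⊤ := by
  obtain ⟨hP, hP0, hnP⟩ := hG
  have hmax : P.IsMaximal := Ideal.IsPrime.isMaximal hP hP0
  by_contra h
  have h2 := hmax.eq_of_le h le_sup_left
  exact hnP (h2 ▸ le_sup_right)

theorem mem_of_InFr {𝔫 P : Ideal (𝓞 K)} (hc : P ⊔ 𝔫 = ⊤) {x : 𝓞 K} (hx : InFr P 𝔫 (x : K)) : x ∈ 𝔫 := by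
  obtain ⟨k, hk⟩ := hx
  have h0 : (x : K) ∈ Fr P 0 ⊤ := Fr_coe (Submodule.mem_top (R := 𝓞 K) (M := 𝓞 K))
  have h1 := Fr_coprime hc hk h0
  obtain ⟨b, hb, h⟩ := h1 1 (by rw [pow_zero, Ideal.one_eq_top]; exact Submodule.mem_top (R := 𝓞 K) (M := 𝓞 K))
  have h2 : x = b := by
    apply RingOfIntegers.coe_injective
    change (x : K) = (b : K)
    rw [← h, cv_one, one_mul]
  rw [h2]
  exact hb

end CGP

open CGP in
theorem t_cgp : S_cgp := by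
  intro K _ _ 𝔫 P h𝔫 hG
  have hc : P ⊔ 𝔫 = ⊤ := sup_top hG
  refine ⟨⟨?_, 𝔫, h𝔫, ?_⟩, ?_⟩
  · intro γ hγ
    have h : ∀ i j, ∃ k, γ i j ∈ Fr P k ⊤ := by
      intro i j
      obtain ⟨k, hk⟩ := hγ i j
      refine ⟨k, ?_⟩
      have e : γ i j = (γ i j - (1 : Matrix (Fin 2) (Fin 2) K) i j) +
          (((1 : Matrix (Fin 2) (Fin 2) (𝓞 K)) i j : 𝓞 K) : K) := by
        rw [one_coe]
        ring
      rw [e]
      exact Fr_add (Fr_mono le_rfl le_top hk) (Fr_coe (Submodule.mem_top (R := 𝓞 K) (M := 𝓞 K)))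
    choose k hk using h
    refine ⟨k 0 0 + k 0 1 + k 1 0 + k 1 1, fun i j => Fr_mono ?_ le_rfl (hk i j)⟩
    fin_cases i <;> fin_cases j <;> simp <;> omega
  · intro γ h
    exact h
  · ext γ
    have h1 : γ ∈ GaN 𝔫 ↔ ∀ i j, γ i j - (1 : Matrix (Fin 2) (Fin 2) (𝓞 K)) i j ∈ 𝔫 := Ind.mem_ker_iff 𝔫 γ
    have h2 : γ ∈ ic (GaP P 𝔫) ↔ ∀ i j, InFr P 𝔫 (oK K γ i j - (1 : Matrix (Fin 2) (Fin 2) K) i j) := Iff.rfl
    have h4 : ∀ i j, oK K γ i j - (1 : Matrix (Fin 2) (Fin 2) K) i j =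
        ((γ i j - (1 : Matrix (Fin 2) (Fin 2) (𝓞 K)) i j : 𝓞 K) : K) := by
      intro i j
      rw [oK_apply, cv_sub, one_coe]
    rw [h1, h2]
    constructor
    · intro h i j
      have := h i j
      rw [h4] at this
      exact mem_of_InFr hc this
    · intro h i j
      rw [h4]
      exact ⟨0, Fr_coe (h i j)⟩

end Pool.Agent.T2h77W
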