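import Pool.Agent.T2h77W.Stm
import Pool.Agent.T2h77.Div

/-! CNT: the numbers. -/

set_option autoImplicit false

open NumberField MeasureTheory
open scoped MatrixGroups

noncomputable section

namespace Pool.Agent.T2h77W

open Pool.Agent.T2h77

theorem cnt_aux (ε C₁ N U Q I s : ℝ) (hε : 0 < ε) (hC : 1 ≤ C₁) (hN : 1 ≤ N) (hU1 : 1 ≤ U) (hQ0 : 0 < Q)
    (hU : N ≤ C₁ * N ^ ε * U) (hQ : Q ≤ C₁ * N ^ ε) (hI1 : U * N ^ 2 ≤ I) (hI2 : I ≤ N ^ 3)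
    (hs0 : 0 ≤ s) (hs : s ≤ 1 / 3) (k : ℕ) (d : Fin k → ℕ) (τ : Fin k → ℝ) (B : ℝ) (hτ : ∀ i, s ≤ τ i)
    (hd : ∀ i, U ≤ Q * d i) (hsum : ∑ i, (d i : ℝ) * I ^ (2 * τ i) ≤ B * I ^ (1 + ε)) :
    (k : ℝ) ≤ C₁ ^ 3 * B * N ^ (2 - 6 * s + 6 * ε) := by
  have hN0 : 0 < N := by linarith
  have hC0 : 0 < C₁ := by linarith
  have hNε : 0 < N ^ ε := Real.rpow_pos_of_pos hN0 ε
  have hI0 : 1 ≤ I := by nlinarith
  have hIp : 0 < I := by linarith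
  have hB : 0 ≤ B := by
    have h1 : 0 ≤ ∑ i, (d i : ℝ) * I ^ (2 * τ i) :=
      Finset.sum_nonneg fun i _ => mul_nonneg (by positivity) (Real.rpow_nonneg hIp.le _)
    have h2 : 0 < I ^ (1 + ε) := Real.rpow_pos_of_pos hIp _
    by_contra h
    push Not at h
    nlinarith
  -- the units
  have hU' : N ^ (1 - ε) / C₁ ≤ U := by
    rw [div_le_iff₀ hC0, Real.rpow_sub hN0, Real.rpow_one, div_le_iff₀ hNε]
    linarith
  have hI3 : N ^ (3 - ε) / C₁ ≤ I := by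
    have h1 : N ^ (3 - ε) = N ^ (1 - ε) * N ^ (2 : ℕ) := by
      rw [← Real.rpow_natCast, ← Real.rpow_add hN0]
      congr 1
      push_cast
      ring
    rw [h1, mul_div_right_comm]
    exact (mul_le_mul_of_nonneg_right hU' (by positivity)).trans hI1
  -- the powers of the index
  have hpow : ∀ i, N ^ (6 * s - ε) / C₁ ≤ I ^ (2 * τ i) := by
    intro i
    have h1 : I ^ (2 * s) ≤ I ^ (2 * τ i) :=
      Real.rpow_le_rpow_of_exponent_le hI0 (by linarith [hτ i])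
    refine le_trans ?_ h1
    have h2 : (N ^ (3 - ε) / C₁) ^ (2 * s) ≤ I ^ (2 * s) :=
      Real.rpow_le_rpow (by positivity) hI3 (by linarith)
    refine le_trans ?_ h2
    rw [Real.div_rpow (by positivity) hC0.le, ← Real.rpow_mul hN0.le]
    have h3 : N ^ (6 * s - ε) ≤ N ^ ((3 - ε) * (2 * s)) :=
      Real.rpow_le_rpow_of_exponent_le hN (by nlinarith)
    have h4 : C₁ ^ (2 * s) ≤ C₁ := by
      calc C₁ ^ (2 * s) ≤ C₁ ^ (1 : ℝ) := Real.rpow_le_rpow_of_exponent_le hC (by linarith)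
        _ = C₁ := Real.rpow_one _
    exact div_le_div₀ (by positivity) h3 (by positivity) h4
  -- the dimensions
  have hdim : ∀ i, N ^ (1 - 2 * ε) / C₁ ^ 2 ≤ (d i : ℝ) := by
    intro i
    have h1 : U ≤ C₁ * N ^ ε * d i := (hd i).trans (mul_le_mul_of_nonneg_right hQ (by positivity))
    have h2 : N ^ (1 - ε) / C₁ ≤ C₁ * N ^ ε * d i := hU'.trans h1
    have h3 : N ^ (1 - 2 * ε) = N ^ (1 - ε) / N ^ ε := by
      rw [← Real.rpow_sub hN0]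
      congr 1
      ring
    rw [h3, div_div, div_le_iff₀ (by positivity)]
    rw [div_le_iff₀ hC0] at h2
    calc N ^ (1 - ε) ≤ C₁ * N ^ ε * d i * C₁ := h2
      _ = d i * (N ^ ε * C₁ ^ 2) := by ring
  have hterm : ∀ i, N ^ (1 - 2 * ε) / C₁ ^ 2 * (N ^ (6 * s - ε) / C₁) ≤ (d i : ℝ) * I ^ (2 * τ i) := by
    intro i
    exact mul_le_mul (hdim i) (hpow i) (by positivity) (by positivity)
  have hI4 : I ^ (1 + ε) ≤ N ^ (3 + 3 * ε) := by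
    calc I ^ (1 + ε) ≤ (N ^ 3) ^ (1 + ε) := Real.rpow_le_rpow hIp.le hI2 (by linarith)
      _ = N ^ (3 + 3 * ε) := by
        rw [← Real.rpow_natCast, ← Real.rpow_mul hN0.le]
        congr 1
        push_cast
        ring
  have h1 : (k : ℝ) * (N ^ (1 - 2 * ε) / C₁ ^ 2 * (N ^ (6 * s - ε) / C₁)) ≤ B * N ^ (3 + 3 * ε) := by
    calc (k : ℝ) * (N ^ (1 - 2 * ε) / C₁ ^ 2 * (N ^ (6 * s - ε) / C₁))
        = ∑ _i : Fin k, N ^ (1 - 2 * ε) / C₁ ^ 2 * (N ^ (6 * s - ε) / C₁) := by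
          rw [Finset.sum_const, Finset.card_univ, Fintype.card_fin, nsmul_eq_mul]
      _ ≤ ∑ i, (d i : ℝ) * I ^ (2 * τ i) := Finset.sum_le_sum fun i _ => hterm i
      _ ≤ B * I ^ (1 + ε) := hsum
      _ ≤ B * N ^ (3 + 3 * ε) := mul_le_mul_of_nonneg_left hI4 hB
  have h2 : N ^ (1 - 2 * ε) / C₁ ^ 2 * (N ^ (6 * s - ε) / C₁) =
      N ^ (3 + 3 * ε) / (C₁ ^ 3 * N ^ (2 - 6 * s + 6 * ε)) := by
    have h3 : N ^ (3 + 3 * ε) = N ^ (1 - 2 * ε) * N ^ (6 * s - ε) * N ^ (2 - 6 * s + 6 * ε) := by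
      rw [← Real.rpow_add hN0, ← Real.rpow_add hN0]
      congr 1
      ring
    have h4 : N ^ (2 - 6 * s + 6 * ε) ≠ 0 := (Real.rpow_pos_of_pos hN0 _).ne'
    rw [h3]
    field_simp
  rw [h2] at h1
  have h5 : 0 < N ^ (3 + 3 * ε) := Real.rpow_pos_of_pos hN0 _
  have h6 : 0 < C₁ ^ 3 * N ^ (2 - 6 * s + 6 * ε) := by positivity
  have h7 : (k : ℝ) / (C₁ ^ 3 * N ^ (2 - 6 * s + 6 * ε)) ≤ B := by
    have h8 : (k : ℝ) / (C₁ ^ 3 * N ^ (2 - 6 * s + 6 * ε)) * N ^ (3 + 3 * ε) ≤ B * N ^ (3 + 3 * ε) := by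
      calc (k : ℝ) / (C₁ ^ 3 * N ^ (2 - 6 * s + 6 * ε)) * N ^ (3 + 3 * ε)
          = (k : ℝ) * (N ^ (3 + 3 * ε) / (C₁ ^ 3 * N ^ (2 - 6 * s + 6 * ε))) := by ring
        _ ≤ _ := h1
    exact le_of_mul_le_mul_right h8 h5
  rw [div_le_iff₀ h6] at h7
  calc (k : ℝ) ≤ B * (C₁ ^ 3 * N ^ (2 - 6 * s + 6 * ε)) := h7
    _ = _ := by ring

/-- CNT. -/
theorem t_cnt (hidx : S_idx) : S_cnt := by
  intro K _ _ ε hε
  obtain ⟨C₁, hC₁, h₁⟩ := sunit K ε hε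
  obtain ⟨C₂, hC₂, h₂⟩ := ssqrt K ε hε
  have hM1 : 1 ≤ max 1 (max C₁ C₂) := le_max_left _ _
  have hM2 : C₁ ≤ max 1 (max C₁ C₂) := (le_max_left _ _).trans (le_max_right _ _)
  have hM3 : C₂ ≤ max 1 (max C₁ C₂) := (le_max_right _ _).trans (le_max_right _ _)
  refine ⟨(max 1 (max C₁ C₂)) ^ 3, by positivity, ?_⟩
  intro m hm s hs0 hs k d τ B hτ hd hsum
  have hfin : Finite (𝓞 K ⧸ m) := Ideal.finiteQuotientOfFreeOfNeBot m hm
  obtain ⟨hI1, hI2⟩ := hidx K m hm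
  have hN : 1 ≤ Ideal.absNorm m := Nat.one_le_iff_ne_zero.2 (by
    rw [Ne, Ideal.absNorm_eq_zero_iff]
    exact hm)
  have hN' : (1 : ℝ) ≤ (Ideal.absNorm m : ℝ) := by exact_mod_cast hN
  have hNε : 0 < (Ideal.absNorm m : ℝ) ^ ε := Real.rpow_pos_of_pos (by linarith) ε
  have hUpos : 0 < Nat.card (𝓞 K ⧸ m)ˣ := Nat.card_pos
  have hU1 : (1 : ℝ) ≤ (Nat.card (𝓞 K ⧸ m)ˣ : ℝ) := by exact_mod_cast hUpos
  haveI : Nonempty {u : 𝓞 K ⧸ m // u ^ 2 = 1} := ⟨⟨1, one_pow 2⟩⟩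
  have hQpos : 0 < Nat.card {u : 𝓞 K ⧸ m // u ^ 2 = 1} := Nat.card_pos
  refine cnt_aux ε _ (Ideal.absNorm m) (Nat.card (𝓞 K ⧸ m)ˣ) (Nat.card {u : 𝓞 K ⧸ m // u ^ 2 = 1})
    ((GaN m).index) s hε hM1 hN' hU1 (by exact_mod_cast hQpos) ?_ ?_ ?_ ?_ hs0 hs k d τ B hτ ?_ hsum
  · refine (h₁ m hm).trans ?_
    exact mul_le_mul_of_nonneg_right (mul_le_mul_of_nonneg_right hM2 hNε.le) (by positivity)
  · exact (h₂ m hm).trans (mul_le_mul_of_nonneg_right hM3 hNε.le)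
  · exact_mod_cast hI1
  · exact_mod_cast hI2
  · intro i
    exact_mod_cast hd i

end Pool.Agent.T2h77W
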