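import Pool.Agent.T2h77W.Stm

/-!
# Changing the level: COS

Hecke eigenfunctions for level `𝔫` which are invariant under `GaN m`, `𝔫 ≤ m`, are Hecke eigenfunctions for
level `m`.
-/

set_option autoImplicit false

open NumberField MeasureTheory
open scoped MatrixGroups

noncomputable section

namespace Pool.Agent.T2h77W

open Pool.Agent.T2h77 Pool.Agent.T2h77.Cnt Pool.Agent.T2h74

namespace Cos

variable {K : Type} [Field K] [NumberField K]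

theorem good_sup {𝔫 P : Ideal (𝓞 K)} (h : Good 𝔫 P) : P ⊔ 𝔫 = ⊤ := by
  have hmax : P.IsMaximal := Ring.DimensionLEOne.maximalOfPrime h.2.1 h.1
  by_contra hne
  have h1 : P = P ⊔ 𝔫 := hmax.eq_of_le hne le_sup_left
  exact h.2.2 (h1 ▸ le_sup_right)

theorem good_mono {𝔫 m P : Ideal (𝓞 K)} (hnm : 𝔫 ≤ m) (h : Good 𝔫 P) : P ⊔ m = ⊤ :=
  top_le_iff.1 (good_sup h ▸ sup_le_sup_left hnm P)

theorem mem_of_InFr {m P : Ideal (𝓞 K)} (hc : P ⊔ m = ⊤) {x : 𝓞 K} (h : InFr P m (x : K)) : x ∈ m := by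
  obtain ⟨l, hl⟩ := h
  have h1 : (x : K) ∈ Fr P 0 ⊤ := Fr_coe (Submodule.mem_top)
  obtain ⟨b, hb, e⟩ := Fr_coprime hc hl h1 1 (by simp)
  have : x = b := by
    apply RingOfIntegers.coe_injective
    rw [cv_one, one_mul] at e
    exact e
  rwa [this]

theorem one_coe (i j : Fin 2) :
    (((1 : SL(2, 𝓞 K)) i j : 𝓞 K) : K) = (1 : Matrix (Fin 2) (Fin 2) K) i j := by
  rw [Matrix.SpecialLinearGroup.coe_one, Matrix.one_apply, Matrix.one_apply]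
  split_ifs <;> simp [cv_sub, cv_one, cv_zero]

theorem ic_GaP {m P : Ideal (𝓞 K)} (hc : P ⊔ m = ⊤) {γ : SL(2, 𝓞 K)} (h : γ ∈ ic (GaP P m)) :
    γ ∈ GaN m := by
  change γ ∈ (rd m).ker
  rw [Ind.mem_ker_iff]
  intro i j
  apply mem_of_InFr hc
  have h1 : InFr P m (oK K γ i j - (1 : Matrix (Fin 2) (Fin 2) K) i j) := h i j
  have h4 : oK K γ i j - (1 : Matrix (Fin 2) (Fin 2) K) i j =
      ((γ i j - (1 : Matrix (Fin 2) (Fin 2) (𝓞 K)) i j : 𝓞 K) : K) := by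
    rw [oK_apply, Matrix.one_apply, Matrix.one_apply]
    split_ifs <;> simp [cv_sub, cv_one, cv_zero]
  rwa [h4] at h1

theorem hasLevel {𝔫 m P : Ideal (𝓞 K)} (hnm : 𝔫 ≤ m) : HasLevel P (GaP P m) 𝔫 := by
  intro γ h i j
  obtain ⟨k, hk⟩ := h i j
  exact ⟨k, Fr_mono le_rfl hnm hk⟩

/-- the key step -/
theorem key {𝔫 m P : Ideal (𝓞 K)} (h𝔫 : 𝔫 ≠ ⊥) (hnm : 𝔫 ≤ m) (hg : Good 𝔫 P) {k : ℕ} {η : SL(2, K)}
    (hη : η ∈ GLk P (GaP P m) k) : ∃ δ ∈ GaN m, oK K δ * η ∈ GLk P (GaP P 𝔫) k := by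
  obtain ⟨γ₀, h⟩ := exists_Rel h𝔫 (good_sup hg) hη.2
  have h1 : γ₀ ∈ GaN m := ic_GaP (good_mono hnm hg) ((Rel_mem (hasLevel hnm) h).1 hη.1)
  refine ⟨γ₀⁻¹, (GaN m).inv_mem h1, ?_⟩
  have h2 := Rel_conj h γ₀⁻¹ 1
  rw [map_one, mul_one, mul_one, inv_mul_cancel] at h2
  refine ⟨fun i j => ⟨k, ?_⟩, fun i j => ?_⟩
  · have h3 := h2 i j
    rwa [one_coe] at h3
  · have h3 := Fr_add (Fr_mono le_rfl le_top (h2 i j))
      (Fr_coe (𝔭 := P) (k := k) (Submodule.mem_top (x := ((1 : SL(2, 𝓞 K)) i j : 𝓞 K))))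
    rwa [sub_add_cancel] at h3

theorem jo_oK (δ : SL(2, 𝓞 K)) : jo K (oK K δ) = io K δ := rfl

end Cos

open Cos

theorem t_cos : S_cos := by
  intro K _ _ 𝔫 m P h𝔫 hnm hg c φ hφ hE k s hs g
  classical
  have hk : ∀ η : SL(2, K), ∃ δ ∈ GaN m, η ∈ s → oK K δ * η ∈ GLk P (GaP P 𝔫) k := by
    intro η
    by_cases h : η ∈ s
    · obtain ⟨δ, h1, h2⟩ := key h𝔫 hnm hg (hs.1 η h)
      exact ⟨δ, h1, fun _ => h2⟩
    · exact ⟨1, (GaN m).one_mem, fun h' => absurd h' h⟩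
  choose d hd hd' using hk
  set F : SL(2, K) → SL(2, K) := fun η => oK K (d η) * η with hF
  have hle : GaP P 𝔫 ≤ GaP P m := by
    intro γ h i j
    obtain ⟨k, hk⟩ := h i j
    exact ⟨k, Fr_mono le_rfl hnm hk⟩
  have hL : ∀ γ η : SL(2, K), LEqv γ (F η) → LEqv γ η := by
    rintro γ η ⟨δ, h⟩
    exact ⟨δ * d η, by rw [h, map_mul, mul_assoc]⟩
  have hL' : ∀ γ η : SL(2, K), LEqv γ η → LEqv γ (F η) := by
    rintro γ η ⟨δ, h⟩
    refine ⟨δ * (d η)⁻¹, ?_⟩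
    rw [h, map_mul, map_inv, mul_assoc, inv_mul_cancel_left]
  have hs' : IsRepSet P (GaP P 𝔫) k (s.image F) := by
    refine ⟨?_, ?_⟩
    · intro y hy
      obtain ⟨η, hη, rfl⟩ := Finset.mem_image.1 hy
      exact hd' η hη
    · intro γ hγ
      obtain ⟨η, ⟨h1, h2⟩, h3⟩ := hs.2 γ ⟨hle hγ.1, hγ.2⟩
      refine ⟨F η, ⟨Finset.mem_image_of_mem F h1, hL' _ _ h2⟩, ?_⟩
      rintro y ⟨hy, hy'⟩
      obtain ⟨η', hη', rfl⟩ := Finset.mem_image.1 hy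
      rw [h3 η' ⟨hη', hL _ _ hy'⟩]
  have hinj : Set.InjOn F (s : Set SL(2, K)) := by
    intro x hx y hy hxy
    have hx' := hs.1 x hx
    obtain ⟨z, _, h3⟩ := hs.2 x hx'
    have h1 : LEqv x (F y) := by
      rw [← hxy]
      exact hL' x x ⟨1, by rw [map_one, one_mul]⟩
    rw [h3 x ⟨hx, ⟨1, by rw [map_one, one_mul]⟩⟩, h3 y ⟨hy, hL _ _ h1⟩]
  have h1 := hE k (s.image F) hs' g
  rw [Finset.sum_image hinj] at h1
  rw [← h1]
  refine Finset.sum_congr rfl fun η _ => ?_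
  have h2 : jo K (F η) * g = lm (d η) (jo K η * g) := by
    rw [hF]
    simp only
    rw [map_mul, jo_oK, mul_assoc]
    rfl
  rw [h2, hφ _ (hd η)]

end Pool.Agent.T2h77W
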