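import Pool.Agent.T2h77W.Stm

/-!
# Fundamental domains of subgroups of finite index
-/

set_option autoImplicit false

open NumberField MeasureTheory
open scoped MatrixGroups

noncomputable section

namespace Pool.Agent.T2h77W

open Pool.Agent.T2h77 Pool.Agent.T2h74

namespace FDM

variable {K : Type} [Field K] [NumberField K]

theorem lm_mul' (γ δ : SL(2, 𝓞 K)) (g : GG K) : lm (γ * δ) g = lm γ (lm δ g) := by
  unfold lm
  rw [map_mul, mul_assoc]

theorem lm_one' (g : GG K) : lm (1 : SL(2, 𝓞 K)) g = g := by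
  unfold lm
  rw [map_one, one_mul]

theorem mp (γ : SL(2, 𝓞 K)) : MeasurePreserving (lm γ : GG K → GG K) (mu K) (mu K) :=
  measurePreserving_mul_left (mu K) (io K γ)

theorem emb (γ : SL(2, 𝓞 K)) : MeasurableEmbedding (lm γ : GG K → GG K) :=
  measurableEmbedding_mulLeft (io K γ)

end FDM

open FDM in
theorem t_fdm : S_fdm := by
  intro K _ _ Γ₀ hidx 𝓕 hF
  obtain ⟨hF1, hF2, hF3⟩ := hF
  have hfin : Finite (SL(2, 𝓞 K) ⧸ Γ₀) := Nat.finite_of_card_ne_zero hidx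
  obtain ⟨T, hT⟩ : ∃ T : SL(2, 𝓞 K) ⧸ Γ₀ → Set (GG K), ∀ q, T q = lm (Quotient.out q) ⁻¹' 𝓕 :=
    ⟨_, fun _ => rfl⟩
  refine ⟨⋃ q, T q, ⟨?_, ?_, ?_⟩, ?_⟩
  · refine NullMeasurableSet.iUnion fun q => ?_
    rw [hT]
    exact hF1.preimage (mp (Quotient.out q)).quasiMeasurePreserving
  · filter_upwards [hF2] with g hg
    obtain ⟨δ, -, hδ⟩ := hg
    obtain ⟨h, hh⟩ := QuotientGroup.mk_out_eq_mul Γ₀ δ
    refine ⟨(h : SL(2, 𝓞 K))⁻¹, Γ₀.inv_mem h.2, Set.mem_iUnion.2 ⟨(δ : SL(2, 𝓞 K) ⧸ Γ₀), ?_⟩⟩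
    rw [hT, Set.mem_preimage, hh, ← lm_mul', mul_assoc, mul_inv_cancel, mul_one]
    exact hδ
  · intro γ hγ hγ1
    have hsub : {g | g ∈ (⋃ q, T q) ∧ lm γ g ∈ ⋃ q, T q} ⊆
        ⋃ (q : SL(2, 𝓞 K) ⧸ Γ₀) (q' : SL(2, 𝓞 K) ⧸ Γ₀), lm (Quotient.out q) ⁻¹'
          {g | g ∈ 𝓕 ∧ lm (Quotient.out q' * γ * (Quotient.out q)⁻¹) g ∈ 𝓕} := by
      rintro g ⟨h1, h2⟩
      obtain ⟨q, hq⟩ := Set.mem_iUnion.1 h1
      obtain ⟨q', hq'⟩ := Set.mem_iUnion.1 h2
      rw [hT] at hq hq'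
      refine Set.mem_iUnion₂.2 ⟨q, q', hq, ?_⟩
      rw [← lm_mul', mul_assoc, mul_assoc, inv_mul_cancel, mul_one, lm_mul']
      exact hq'
    refine measure_mono_null hsub ?_
    rw [measure_iUnion_null_iff]
    intro q
    rw [measure_iUnion_null_iff]
    intro q'
    rw [(mp (Quotient.out q)).measure_preimage_emb (emb _)]
    refine hF3 _ (Subgroup.mem_top _) ?_
    intro h1
    have h2 : Quotient.out q' * γ = Quotient.out q := mul_inv_eq_one.1 h1
    have h3 : q' = q := by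
      rw [← QuotientGroup.out_eq' q', ← QuotientGroup.out_eq' q, QuotientGroup.eq, ← h2, inv_mul_cancel_left]
      exact hγ
    rw [h3] at h2
    exact hγ1 (mul_eq_left.1 h2)
  · intro φ hφ hL
    have hint : ∀ q, IntegrableOn (fun g => ‖φ g‖ ^ 2) (T q) (mu K) := by
      intro q
      have h1 : MemLp (fun g => φ (lm (Quotient.out q)⁻¹ g)) 2 ((mu K).restrict 𝓕) := hL _
      have h2 := h1.comp_measurePreserving
        ((mp (Quotient.out q)).restrict_preimage_emb (emb (Quotient.out q)) 𝓕)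
      have h3 : (fun g => φ (lm (Quotient.out q)⁻¹ g)) ∘ lm (Quotient.out q) = φ := by
        funext g
        simp only [Function.comp_apply]
        rw [← lm_mul', inv_mul_cancel, lm_one']
      rw [h3, ← hT] at h2
      exact (memLp_two_iff_integrable_sq_norm h2.1).1 h2
    have h4 : IntegrableOn (fun g => ‖φ g‖ ^ 2) (⋃ q, T q) (mu K) :=
      integrableOn_finite_iUnion.2 hint
    exact (memLp_two_iff_integrable_sq_norm hφ.aestronglyMeasurable).2 h4

end Pool.Agent.T2h77W
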