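import Pool.Agent.T2h77W.Stm
import Pool.Agent.T2h77.Gen

/-! IDX: the index of the principal congruence subgroup. -/

set_option autoImplicit false

open NumberField MeasureTheory
open scoped MatrixGroups

noncomputable section

namespace Pool.Agent.T2h77W

theorem card_SL_ge (A : Type) [CommRing A] [Finite A] :
    Nat.card Aˣ * Nat.card A ^ 2 ≤ Nat.card SL(2, A) := by
  have hfin : Finite SL(2, A) := Pool.Agent.T2h77.Ind.finSL
  let Φ : Aˣ × A × A → SL(2, A) := fun p =>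
    ⟨!![(p.1 : A), (p.1 : A) * p.2.2; p.2.1 * p.1, p.2.1 * p.1 * p.2.2 + ((p.1⁻¹ : Aˣ) : A)], by
      rw [Matrix.det_fin_two_of, mul_add, Units.mul_inv]
      ring⟩
  have hΦ : Function.Injective Φ := by
    rintro ⟨u, x, y⟩ ⟨u', x', y'⟩ h
    have h0 : (Φ (u, x, y) : Matrix (Fin 2) (Fin 2) A) = Φ (u', x', y') := congrArg _ h
    have h00 : (u : A) = u' := congrFun (congrFun h0 0) 0
    have h01 : (u : A) * y = u' * y' := congrFun (congrFun h0 0) 1
    have h10 : x * (u : A) = x' * u' := congrFun (congrFun h0 1) 0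
    have hu : u = u' := Units.ext h00
    subst hu
    have hy : y = y' := (Units.mul_right_inj u).1 h01
    have hx : x = x' := (Units.mul_left_inj u).1 h10
    rw [hx, hy]
  have h := Nat.card_le_card_of_injective Φ hΦ
  rw [Nat.card_prod, Nat.card_prod] at h
  rw [sq]
  exact h

theorem card_SL_le (A : Type) [CommRing A] [Finite A] : Nat.card SL(2, A) ≤ Nat.card A ^ 3 := by
  classical
  have hr : ∀ q : A × A, ∃ r : A × A, (∃ r' : A × A, q.1 * r'.2 - q.2 * r'.1 = 1) →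
      q.1 * r.2 - q.2 * r.1 = 1 := by
    intro q
    by_cases h : ∃ r' : A × A, q.1 * r'.2 - q.2 * r'.1 = 1
    · obtain ⟨r, hr⟩ := h
      exact ⟨r, fun _ => hr⟩
    · exact ⟨0, fun h' => absurd h' h⟩
  choose r hr using hr
  have hdet : ∀ g : SL(2, A), g 0 0 * g 1 1 - g 0 1 * g 1 0 = 1 := by
    intro g
    have := g.det_coe
    rw [Matrix.det_fin_two] at this
    exact this
  let F : SL(2, A) → A × A × A := fun g =>
    (g 0 0, g 0 1, g 1 0 * (r (g 0 0, g 0 1)).2 - g 1 1 * (r (g 0 0, g 0 1)).1)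
  have hF : Function.Injective F := by
    intro g g' h
    have h1 : g 0 0 = g' 0 0 := congrArg Prod.fst h
    have h2 : g 0 1 = g' 0 1 := congrArg (fun p => p.2.1) h
    have h3 : g 1 0 * (r (g 0 0, g 0 1)).2 - g 1 1 * (r (g 0 0, g 0 1)).1 =
      g' 1 0 * (r (g' 0 0, g' 0 1)).2 - g' 1 1 * (r (g' 0 0, g' 0 1)).1 := congrArg (fun p => p.2.2) h
    have hd := hdet g
    have hd' := hdet g'
    have hr0 := hr (g 0 0, g 0 1) ⟨(g 1 0, g 1 1), hd⟩
    rw [← h1, ← h2] at h3 hd'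
    obtain ⟨a, ha⟩ : ∃ a, a = g 0 0 := ⟨_, rfl⟩
    obtain ⟨b, hb⟩ : ∃ b, b = g 0 1 := ⟨_, rfl⟩
    obtain ⟨c0, hc0⟩ : ∃ c0, c0 = (r (g 0 0, g 0 1)).1 := ⟨_, rfl⟩
    obtain ⟨d0, hd0⟩ : ∃ d0, d0 = (r (g 0 0, g 0 1)).2 := ⟨_, rfl⟩
    rw [← hc0, ← hd0] at h3 hr0
    simp only [← ha, ← hb] at h3 hr0 hd hd'
    have hc : g 1 0 = g' 1 0 := by
      linear_combination (g' 1 0 - g 1 0) * hr0 + a * h3 + c0 * (hd - hd')
    have hdd : g 1 1 = g' 1 1 := by
      linear_combination (g' 1 1 - g 1 1) * hr0 + b * h3 + d0 * (hd - hd')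
    apply Subtype.ext
    ext i j
    fin_cases i <;> fin_cases j
    · exact h1
    · exact h2
    · exact hc
    · exact hdd
  have h := Nat.card_le_card_of_injective F hF
  rw [Nat.card_prod, Nat.card_prod] at h
  calc Nat.card SL(2, A) ≤ _ := h
    _ = _ := by ring

/-- IDX. -/
theorem t_idx : S_idx := by
  intro K _ _ 𝔫 h𝔫
  have hfin : Finite (𝓞 K ⧸ 𝔫) := Ideal.finiteQuotientOfFreeOfNeBot 𝔫 h𝔫
  have h1 : (GaN 𝔫).index = Nat.card SL(2, 𝓞 K ⧸ 𝔫) := by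
    unfold GaN
    rw [Subgroup.index_ker, MonoidHom.range_eq_top.2 (Pool.Agent.T2h77.surj K 𝔫 h𝔫)]
    exact Subgroup.card_top
  have h2 : Ideal.absNorm 𝔫 = Nat.card (𝓞 K ⧸ 𝔫) := by
    rw [Ideal.absNorm_apply, Submodule.cardQuot_apply]
  rw [h1, h2]
  exact ⟨card_SL_ge _, card_SL_le _⟩

end Pool.Agent.T2h77W
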