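import Pool.Agent.T2h77W.Stm

/-! IND: bases of joint eigenspaces with distinct systems of eigenvalues are linearly independent together. -/

set_option autoImplicit false

open NumberField MeasureTheory
open scoped MatrixGroups

noncomputable section

namespace Pool.Agent.T2h77W

/-- IND. -/
theorem t_ind : S_ind := by
  intro E _ _ k W hT d b hb hbW
  classical
  have key : ∀ (n : ℕ) (w : Fin k → E), (∀ i, w i ∈ W i) → ∑ i, w i = 0 →
      (Finset.univ.filter fun i => w i ≠ 0).card ≤ n → ∀ i, w i = 0 := by
    intro n
    induction n with
    | zero =>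
      intro w _ _ h i
      have h0 : (Finset.univ.filter fun i => w i ≠ 0) = ∅ := Finset.card_eq_zero.1 (by omega)
      by_contra hi
      have : i ∈ (Finset.univ.filter fun i => w i ≠ 0) := by simp [hi]
      rw [h0] at this
      simp at this
    | succ n ih =>
      intro w hw hsum hcard
      by_contra hcon
      push Not at hcon
      obtain ⟨i, hi⟩ := hcon
      obtain ⟨j, hji, hj⟩ : ∃ j, j ≠ i ∧ w j ≠ 0 := by
        by_contra h
        push Not at h
        rw [Finset.sum_eq_single i (fun j _ hj => h j hj) (by simp)] at hsum
        exact hi hsum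
      obtain ⟨T, c, hc, hcij⟩ := hT i j hji.symm
      have h1 : ∑ l, (c l - c i) • w l = 0 := by
        have h2 : T (∑ l, w l) = ∑ l, c l • w l := by
          rw [map_sum]
          exact Finset.sum_congr rfl fun l _ => hc l _ (hw l)
        rw [hsum, map_zero] at h2
        simp only [sub_smul, Finset.sum_sub_distrib]
        rw [← h2, ← Finset.smul_sum, hsum, smul_zero, sub_zero]
      have h3 := ih (fun l => (c l - c i) • w l) (fun l => (W l).smul_mem _ (hw l)) h1 (by
        have h5 : (Finset.univ.filter fun l => (c l - c i) • w l ≠ 0) ⊆
            (Finset.univ.filter fun l => w l ≠ 0).erase i := by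
          intro l hl
          rw [Finset.mem_filter] at hl
          rw [Finset.mem_erase, Finset.mem_filter]
          refine ⟨?_, Finset.mem_univ _, ?_⟩
          · rintro rfl
            exact hl.2 (by rw [sub_self, zero_smul])
          · intro h
            exact hl.2 (by rw [h, smul_zero])
        have h4 := Finset.card_le_card h5
        rw [Finset.card_erase_of_mem (by simp [hi])] at h4
        omega) j
      rcases smul_eq_zero.1 h3 with h | h
      · exact hcij (sub_eq_zero.1 h).symm
      · exact hj h
  rw [Fintype.linearIndependent_iff]
  rintro g hg ⟨i, j⟩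
  rw [Fintype.sum_sigma] at hg
  have h1 := key k (fun i => ∑ j, g ⟨i, j⟩ • b i j)
    (fun i => Submodule.sum_mem _ fun j _ => (W i).smul_mem _ (hbW i j)) hg
    ((Finset.card_le_univ _).trans (by simp)) i
  exact Fintype.linearIndependent_iff.1 (hb i) (fun j => g ⟨i, j⟩) h1 j

end Pool.Agent.T2h77W
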