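import Pool.Agent.T2h77W.Stm

/-!
# IRR: a large piece of exact level
-/

set_option autoImplicit false

open NumberField MeasureTheory
open scoped MatrixGroups

noncomputable section

namespace Pool.Agent.T2h77W

open Pool.Agent.T2h77 Pool.Agent.T2h77.Cnt Pool.Agent.T2h74

namespace IRR

variable {K : Type} [Field K] [NumberField K]

/-- the action on functions -/
def L : SL(2, 𝓞 K) →* ((GG K → ℂ) →ₗ[ℂ] (GG K → ℂ)) where
  toFun γ :=
    { toFun := fun φ g => φ (lm γ⁻¹ g)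
      map_add' := fun _ _ => rfl
      map_smul' := fun _ _ => rfl }
  map_one' := by
    apply LinearMap.ext
    intro φ
    funext g
    show φ (lm (1 : SL(2, 𝓞 K))⁻¹ g) = φ g
    unfold lm
    rw [inv_one, map_one, one_mul]
  map_mul' γ δ := by
    apply LinearMap.ext
    intro φ
    funext g
    show φ (lm (γ * δ)⁻¹ g) = φ (lm δ⁻¹ (lm γ⁻¹ g))
    unfold lm
    rw [_root_.mul_inv_rev, map_mul, mul_assoc]

theorem L_apply (γ : SL(2, 𝓞 K)) (φ : GG K → ℂ) (g : GG K) : L γ φ g = φ (lm γ⁻¹ g) := rfl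

/-- the action on an invariant subspace -/
def RW (W : Submodule ℂ (GG K → ℂ)) (hW : ∀ γ, ∀ φ ∈ W, L γ φ ∈ W) : SL(2, 𝓞 K) →* (W →ₗ[ℂ] W) where
  toFun γ := (L γ).restrict (hW γ)
  map_one' := by
    apply LinearMap.ext
    intro φ
    apply Subtype.ext
    show L 1 (φ : GG K → ℂ) = φ
    rw [map_one]
    rfl
  map_mul' γ δ := by
    apply LinearMap.ext
    intro φ
    apply Subtype.ext
    show L (γ * δ) (φ : GG K → ℂ) = L γ (L δ (φ : GG K → ℂ))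
    rw [map_mul]
    rfl

theorem RW_apply (W : Submodule ℂ (GG K → ℂ)) (hW : ∀ γ, ∀ φ ∈ W, L γ φ ∈ W) (γ : SL(2, 𝓞 K)) (φ : W) :
    (RW W hW γ φ : GG K → ℂ) = L γ φ := rfl

theorem RW_congr (W : Submodule ℂ (GG K → ℂ)) (hW : ∀ γ, ∀ φ ∈ W, L γ φ ∈ W) (m : Ideal (𝓞 K))
    (hm : ∀ γ ∈ GaN m, ∀ φ ∈ W, ∀ g, φ (lm γ g) = φ g) {γ δ : SL(2, 𝓞 K)} (h : rd m γ = rd m δ) :
    RW W hW γ = RW W hW δ := by
  have h1 : δ⁻¹ * γ ∈ GaN m := by
    show rd m (δ⁻¹ * γ) = 1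
    rw [map_mul, map_inv, h, inv_mul_cancel]
  have h2 : RW W hW (δ⁻¹ * γ) = 1 := by
    apply LinearMap.ext
    intro φ
    apply Subtype.ext
    funext g
    show (φ : GG K → ℂ) (lm (δ⁻¹ * γ)⁻¹ g) = (φ : GG K → ℂ) g
    exact hm _ ((GaN m).inv_mem h1) φ φ.2 g
  calc RW W hW γ = RW W hW (δ * (δ⁻¹ * γ)) := by rw [mul_inv_cancel_left]
    _ = RW W hW δ := by rw [map_mul, h2, mul_one]

/-- a minimal invariant subspace -/
theorem exists_min (V : Submodule ℂ (GG K → ℂ)) (hfin : FiniteDimensional ℂ V) (hV : V ≠ ⊥)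
    (hinv : ∀ γ, ∀ φ ∈ V, L γ φ ∈ V) : ∃ W : Submodule ℂ (GG K → ℂ), W ≤ V ∧ W ≠ ⊥ ∧
      (∀ γ, ∀ φ ∈ W, L γ φ ∈ W) ∧
      ∀ U : Submodule ℂ (GG K → ℂ), U ≤ W → U ≠ ⊥ → (∀ γ, ∀ φ ∈ U, L γ φ ∈ U) → U = W := by
  classical
  have hex : ∃ n : ℕ, ∃ W : Submodule ℂ (GG K → ℂ), W ≤ V ∧ W ≠ ⊥ ∧
      (∀ γ, ∀ φ ∈ W, L γ φ ∈ W) ∧ Module.finrank ℂ W = n := ⟨_, V, le_rfl, hV, hinv, rfl⟩
  obtain ⟨W, hWV, hW0, hWi, hWn⟩ := Nat.find_spec hex
  refine ⟨W, hWV, hW0, hWi, fun U hUW hU0 hUi => ?_⟩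
  have hmin := Nat.find_min' hex ⟨U, hUW.trans hWV, hU0, hUi, rfl⟩
  have hWf : FiniteDimensional ℂ W := Submodule.finiteDimensional_of_le hWV
  rw [← hWn] at hmin
  exact Submodule.eq_of_le_of_finrank_le hUW hmin

end IRR

open IRR in
theorem t_irr : S_prm → S_orb → S_irr := by
  intro hPRM hORB K _ _ 𝔫 h𝔫 V hVf hV0 hVi hVn
  have hVi' : ∀ γ, ∀ φ ∈ V, L γ φ ∈ V := fun γ φ hφ => hVi γ⁻¹ φ hφ
  obtain ⟨W, hWV, hW0, hWi, hWmin⟩ := exists_min V hVf hV0 hVi'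
  have hWf : FiniteDimensional ℂ W := Submodule.finiteDimensional_of_le hWV
  -- the level
  obtain ⟨m, ⟨h𝔫m, hm⟩, hmax⟩ := WellFounded.has_min (wellFounded_gt (α := Ideal (𝓞 K)))
    {m : Ideal (𝓞 K) | 𝔫 ≤ m ∧ ∀ γ ∈ GaN m, ∀ φ ∈ W, ∀ g, φ (lm γ g) = φ g}
    ⟨𝔫, le_rfl, fun γ hγ φ hφ g => hVn γ hγ φ (hWV hφ) g⟩
  have hm0 : m ≠ ⊥ := by
    rintro rfl
    exact h𝔫 (le_bot_iff.1 h𝔫m)
  have hfinA : Finite (𝓞 K ⧸ m) := Ideal.finiteQuotientOfFreeOfNeBot m hm0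
  have hpir : IsPrincipalIdealRing (𝓞 K ⧸ m) := pir hm0
  have hs : Function.Surjective (rd m) := surj K m hm0
  let R := RW W hWi
  have hR : ∀ {γ δ : SL(2, 𝓞 K)}, rd m γ = rd m δ → R γ = R δ := fun h => RW_congr W hWi m hm h
  let ρ : SL(2, 𝓞 K ⧸ m) →* (W →ₗ[ℂ] W) :=
    { toFun := fun g => R (Function.surjInv hs g)
      map_one' := by
        rw [← map_one R]
        exact hR (by rw [Function.surjInv_eq hs, map_one])
      map_mul' := fun g h => by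
        rw [← map_mul R]
        exact hR (by rw [Function.surjInv_eq hs, map_mul, Function.surjInv_eq hs, Function.surjInv_eq hs]) }
  have hρ : ∀ γ, ρ (rd m γ) = R γ := fun γ => hR (Function.surjInv_eq hs _)
  have hnt : Nontrivial W := Submodule.nontrivial_iff_ne_bot.2 hW0
  have hirr : ∀ U : Submodule ℂ W, (∀ g, ∀ u ∈ U, ρ g u ∈ U) → U = ⊥ ∨ U = ⊤ := by
    intro U hU
    by_cases hU0 : U = ⊥
    · exact Or.inl hU0
    · right
      have h1 : U.map W.subtype ≤ W := Submodule.map_subtype_le W U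
      have h2 : U.map W.subtype ≠ ⊥ := by
        intro h
        apply hU0
        rw [eq_bot_iff]
        intro u hu
        have h' : (u : GG K → ℂ) ∈ U.map W.subtype := ⟨u, hu, rfl⟩
        rw [h, Submodule.mem_bot] at h'
        rw [Submodule.mem_bot]
        exact Subtype.ext h'
      have h3 : ∀ γ, ∀ φ ∈ U.map W.subtype, L γ φ ∈ U.map W.subtype := by
        rintro γ φ ⟨u, hu, rfl⟩
        refine ⟨ρ (rd m γ) u, hU _ u hu, ?_⟩
        rw [hρ]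
        rfl
      have h4 := hWmin _ h1 h2 h3
      rw [eq_top_iff]
      rintro w -
      have h5 : (w : GG K → ℂ) ∈ U.map W.subtype := by rw [h4]; exact w.2
      obtain ⟨u, hu, hw⟩ := h5
      have h6 : u = w := Subtype.ext hw
      rw [← h6]
      exact hu
  have hker : ∀ T : Ideal (𝓞 K ⧸ m), T ≠ ⊥ → ∃ g ∈ (rd T).ker, ρ g ≠ 1 := by
    intro T hT
    have h1 : m < T.comap (Ideal.Quotient.mk m) := by
      refine lt_of_le_of_ne ?_ ?_
      · intro x hx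
        rw [Ideal.mem_comap, Ideal.Quotient.eq_zero_iff_mem.2 hx]
        exact T.zero_mem
      · intro h
        apply hT
        rw [eq_bot_iff]
        intro y hy
        obtain ⟨x, rfl⟩ := Ideal.Quotient.mk_surjective y
        have h2 : x ∈ T.comap (Ideal.Quotient.mk m) := hy
        rw [← h] at h2
        rw [Ideal.Quotient.eq_zero_iff_mem.2 h2]
        exact Submodule.zero_mem _
    have h2 : ¬ (∀ γ ∈ GaN (T.comap (Ideal.Quotient.mk m)), ∀ φ ∈ W, ∀ g, φ (lm γ g) = φ g) := by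
      intro h
      exact hmax _ ⟨h𝔫m.trans h1.le, h⟩ h1
    push Not at h2
    obtain ⟨δ, hδ, φ, hφ, g₀, hg₀⟩ := h2
    refine ⟨rd m δ, ?_, ?_⟩
    · have h3 := (Ind.mem_ker_iff _ δ).1 hδ
      rw [Ind.mem_ker_iff]
      intro i j
      have h4 := h3 i j
      rw [Ideal.mem_comap, map_sub] at h4
      have h5 : Ideal.Quotient.mk m ((1 : Matrix (Fin 2) (Fin 2) (𝓞 K)) i j) =
          (1 : Matrix (Fin 2) (Fin 2) (𝓞 K ⧸ m)) i j := by
        rw [Matrix.one_apply, Matrix.one_apply]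
        split_ifs
        · exact map_one _
        · exact map_zero _
      rw [h5] at h4
      exact h4
    · intro h
      rw [hρ] at h
      have h3 : ((R δ) ⟨φ, hφ⟩ : GG K → ℂ) (lm δ g₀) = φ (lm δ g₀) := by
        rw [h]
        rfl
      have h4 : ((R δ) ⟨φ, hφ⟩ : GG K → ℂ) (lm δ g₀) = φ g₀ := by
        show φ (lm δ⁻¹ (lm δ g₀)) = φ g₀
        unfold lm
        rw [← mul_assoc, ← map_mul, inv_mul_cancel, map_one, one_mul]
      exact hg₀ (h3.symm.trans h4)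
  obtain ⟨ψ, w, hw0, hw, hψ⟩ := hPRM (𝓞 K ⧸ m) W ρ hnt hirr hker
  exact ⟨m, W, h𝔫m, hWV, hm, hORB (𝓞 K ⧸ m) W ρ ψ w hw0 hw hψ⟩

end Pool.Agent.T2h77W
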