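import Pool.Agent.T2h77W.Stm

set_option autoImplicit false

open NumberField MeasureTheory
open scoped MatrixGroups

noncomputable section

namespace Pool.Agent.T2h77W

open Pool.Agent.T2h77 Pool.Agent.T2h74

theorem t_lvl : S_ind → S_fdm → S_cgp → S_cos → S_idx → S_all → S_lvl := by
  intro hind hfdm hcgp hcos hidx hall K _ _
  obtain ⟨A, hA⟩ := hall K
  refine ⟨A, fun ε L hε => ?_⟩
  obtain ⟨C, hC, hmain⟩ := hA ε L hε
  refine ⟨C, hC, ?_⟩
  intro 𝔫 m h𝔫 hm 𝓕 h𝓕 X hX k N σ ν τ c W hfin hW hNL hP hτ hdist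
  have hm0 : m ≠ ⊥ := fun h => h𝔫 (by rw [h] at hm; exact le_bot_iff.mp hm)
  have hidx0 : (GaN m).index ≠ 0 := by
    have h1 := (hidx K m hm0).1
    have h2 : 0 < Ideal.absNorm m := Nat.pos_of_ne_zero (by
      rw [Ne, Ideal.absNorm_eq_zero_iff]; exact hm0)
    haveI : Finite (𝓞 K ⧸ m) := Ideal.finiteQuotientOfFreeOfNeBot m hm0
    have h3 : 0 < Nat.card (𝓞 K ⧸ m)ˣ := Nat.card_pos
    have h4 : 0 < Nat.card (𝓞 K ⧸ m)ˣ * Ideal.absNorm m ^ 2 := Nat.mul_pos h3 (pow_pos h2 2)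
    exact (lt_of_lt_of_le h4 h1).ne'
  obtain ⟨𝓕', hF', hL2⟩ := hfdm K (GaN m) hidx0 𝓕 h𝓕
  choose P hPg hPX hPc using hP
  haveI : ∀ i, FiniteDimensional ℂ (W i) := hfin
  let b : ∀ i, Fin (Module.finrank ℂ (W i)) → GG K → ℂ :=
    fun i j => ((Module.finBasis ℂ (W i) j : W i) : GG K → ℂ)
  have hb : ∀ i, LinearIndependent ℂ (b i) := fun i =>
    (Module.finBasis ℂ (W i)).linearIndependent.map' (W i).subtype (Submodule.ker_subtype _)
  have hbW : ∀ i j, b i j ∈ W i := fun i j => (Module.finBasis ℂ (W i) j).2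
  have hsep : ∀ i j, i ≠ j → ∃ (T : (GG K → ℂ) →ₗ[ℂ] (GG K → ℂ)) (c : Fin k → ℂ),
      (∀ l, ∀ w ∈ W l, T w = c l • w) ∧ c i ≠ c j := by
    intro i j hij
    obtain ⟨P0, k0, s0, hg, hs, hne⟩ := hdist i j hij
    refine ⟨{ toFun := fun φ g => ∑ η ∈ s0, φ (jo K η * g), map_add' := ?_, map_smul' := ?_ },
      fun l => c l P0 k0, ?_, hne⟩
    · intro φ ψ
      funext g
      simp [Finset.sum_add_distrib]
    · intro a φ
      funext g
      simp [Finset.mul_sum]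
    · intro l w hw
      funext g
      exact (hW l w hw).2.1 P0 hg k0 s0 hs g
  have hLI := hind (GG K → ℂ) k W hsep (fun i => Module.finrank ℂ (W i)) b hb hbW
  let e : ((i : Fin k) × Fin (Module.finrank ℂ (W i))) ≃ Fin (∑ i, Module.finrank ℂ (W i)) :=
    finSigmaFinEquiv
  have hgood : ∀ i, Good m (P i) := fun i =>
    ⟨(hPg i).1, (hPg i).2.1, fun h => (hPg i).2.2 (hm.trans h)⟩
  have hfinal := hmain (GaN m) 𝓕' hF' X hX (fun Q => GaP Q m) (∑ i, Module.finrank ℂ (W i))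
    (fun q => P (e.symm q).1) (fun q => N (e.symm q).1) (fun q => σ (e.symm q).1)
    (fun q => ν (e.symm q).1) (fun q => τ (e.symm q).1)
    (fun q => b (e.symm q).1 (e.symm q).2)
    (fun q => ⟨(hgood (e.symm q).1).1, (hgood (e.symm q).1).2.1, hPX (e.symm q).1,
      (hcgp K m (P (e.symm q).1) hm0 (hgood (e.symm q).1)).1,
      (hcgp K m (P (e.symm q).1) hm0 (hgood (e.symm q).1)).2⟩)
    (fun q => by
      obtain ⟨⟨h1, h2, h3, h4⟩, h5, h6⟩ := hW (e.symm q).1 (b (e.symm q).1 (e.symm q).2)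
        (hbW (e.symm q).1 (e.symm q).2)
      refine ⟨h1, h6, h3, hL2 _ h1 h4, ?_⟩
      intro l s hs g
      have h7 := hcos K 𝔫 m (P (e.symm q).1) h𝔫 hm (hPg (e.symm q).1)
        (c (e.symm q).1 (P (e.symm q).1)) (b (e.symm q).1 (e.symm q).2) h6
        (h5 (P (e.symm q).1) (hPg (e.symm q).1)) l s hs g
      rw [h7, hPc (e.symm q).1 l])
    (fun q w => hNL (e.symm q).1 w) (fun q => hτ (e.symm q).1)
    (hLI.comp _ e.symm.injective)
  have hsum : ∑ q : Fin (∑ i, Module.finrank ℂ (W i)), ((GaN m).index : ℝ) ^ (2 * τ (e.symm q).1) =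
      ∑ i, (Module.finrank ℂ (W i) : ℝ) * ((GaN m).index : ℝ) ^ (2 * τ i) := by
    rw [Equiv.sum_comp e.symm
      (fun p : (i : Fin k) × Fin (Module.finrank ℂ (W i)) => ((GaN m).index : ℝ) ^ (2 * τ p.1)),
      Fintype.sum_sigma]
    refine Finset.sum_congr rfl fun i _ => ?_
    simp
  rw [← hsum]
  exact hfinal

end Pool.Agent.T2h77W
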