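import Pool.Agent.T2h77W.Stm
import Pool.Agent.T2h77.Index

/-!
# The dimension is at least the number of the squares of units
-/

set_option autoImplicit false

open Matrix
open scoped MatrixGroups

noncomputable section

namespace Pool.Agent.T2h77W

open Pool.Agent.T2h77 Pool.Agent.T2h77.Ind

namespace ORB

/-- joint eigenvectors with distinct characters are linearly independent -/
theorem indep {V W : Type} [AddCommGroup V] [AddCommGroup W] [Module ℂ W] (T : V → W →ₗ[ℂ] W)
    {ι : Type} (χ : ι → V → ℂ) (hχ : Function.Injective χ) (w : ι → W) (hw : ∀ i, w i ≠ 0)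
    (h : ∀ i x, T x (w i) = χ i x • w i) : LinearIndependent ℂ w := by
  classical
  rw [linearIndependent_iff']
  intro s
  induction s using Finset.induction_on with
  | empty => exact fun _ _ i hi => absurd hi (Finset.notMem_empty i)
  | insert a s ha ih =>
    intro g hg
    -- all other coefficients vanish
    have h1 : ∀ i ∈ s, g i = 0 := by
      intro i hi
      have hia : i ≠ a := fun h => ha (h ▸ hi)
      obtain ⟨x, hx⟩ : ∃ x, χ i x ≠ χ a x := by
        by_contra hcon
        push Not at hcon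
        exact hia (hχ (funext hcon))
      have h2 : ∑ j ∈ s, (g j * (χ j x - χ a x)) • w j = 0 := by
        have h3 : T x (∑ j ∈ insert a s, g j • w j) - χ a x • ∑ j ∈ insert a s, g j • w j = 0 := by
          rw [hg, map_zero, smul_zero, sub_zero]
        rw [map_sum, Finset.smul_sum, ← Finset.sum_sub_distrib, Finset.sum_insert ha] at h3
        have h4 : T x (g a • w a) - χ a x • g a • w a = 0 := by
          rw [map_smul, h, smul_comm, sub_self]
        rw [h4, zero_add] at h3
        rw [← h3]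
        refine Finset.sum_congr rfl fun j _ => ?_
        rw [map_smul, h, mul_sub, sub_smul, smul_smul, smul_smul, mul_comm (g j) (χ a x)]
      have h5 := ih _ h2 i hi
      exact (mul_eq_zero.1 h5).resolve_right (sub_ne_zero.2 hx)
    intro i hi
    rcases Finset.mem_insert.1 hi with rfl | hi
    · rw [Finset.sum_insert ha, Finset.sum_eq_zero fun j hj => by rw [h1 j hj, zero_smul], add_zero] at hg
      exact (smul_eq_zero.1 hg).resolve_right (hw _)
    · exact h1 i hi

end ORB

theorem t_orb : S_orb := by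
  classical
  intro A _ _ _ W _ _ _ ρ ψ w hw hψ hP
  -- the translates
  have heig : ∀ (u : Aˣ) (x : A), ρ (nU x) (ρ (tD u) w) = ψ (((u⁻¹ : Aˣ) : A) ^ 2 * x) • ρ (tD u) w := by
    intro u x
    have h1 : ρ (nU x) * ρ (tD u) = ρ (tD u) * ρ (nU (((u⁻¹ : Aˣ) : A) ^ 2 * x)) := by
      rw [← map_mul, ← map_mul, tD_nU]
    have h2 := LinearMap.congr_fun h1 w
    change ρ (nU x) (ρ (tD u) w) = ρ (tD u) (ρ (nU (((u⁻¹ : Aˣ) : A) ^ 2 * x)) w) at h2
    rw [h2, hψ, map_smul]
  have hne : ∀ u : Aˣ, ρ (tD u) w ≠ 0 := by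
    intro u h
    apply hw
    have h1 : ρ (tD u)⁻¹ * ρ (tD u) = 1 := by rw [← map_mul, inv_mul_cancel, map_one]
    have h2 := LinearMap.congr_fun h1 w
    change ρ (tD u)⁻¹ (ρ (tD u) w) = w at h2
    rw [← h2, h, map_zero]
  -- equal characters
  have hsq : ∀ u v : Aˣ, (∀ x : A, ψ (((u⁻¹ : Aˣ) : A) ^ 2 * x) = ψ (((v⁻¹ : Aˣ) : A) ^ 2 * x)) →
      ((u⁻¹ : Aˣ) : A) ^ 2 = ((v⁻¹ : Aˣ) : A) ^ 2 := by
    intro u v h
    obtain ⟨J, hJ⟩ : ∃ J : Ideal A, ∀ j, j ∈ J ↔ ∀ x : A, ψ (j * x) = 1 := by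
      refine ⟨⟨⟨⟨{j | ∀ x : A, ψ (j * x) = 1}, ?_⟩, ?_⟩, ?_⟩, fun j => Iff.rfl⟩
      · intro a b ha hb x
        rw [add_mul, AddChar.map_add_eq_mul, ha x, hb x, one_mul]
      · intro x
        rw [zero_mul, AddChar.map_zero_eq_one]
      · intro c a ha x
        rw [smul_eq_mul, mul_comm c a, mul_assoc]
        exact ha _
    have hJbot : J = ⊥ := by
      by_contra hne
      obtain ⟨P, hP1, hP2⟩ := soc J hne
      obtain ⟨x, hx, hx1⟩ := hP P hP1
      apply hx1
      have := (hJ x).1 (hP2 hx) 1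
      rwa [mul_one] at this
    have hmem : ((u⁻¹ : Aˣ) : A) ^ 2 - ((v⁻¹ : Aˣ) : A) ^ 2 ∈ J := by
      rw [hJ]
      intro x
      obtain ⟨b, hb⟩ : ∃ b, b = ((v⁻¹ : Aˣ) : A) ^ 2 * x := ⟨_, rfl⟩
      have h1 := h x
      rw [← hb] at h1
      have h2 : ψ b * ψ (-b) = 1 := by
        rw [← AddChar.map_add_eq_mul, add_neg_cancel, AddChar.map_zero_eq_one]
      rw [sub_mul, ← hb, sub_eq_add_neg, AddChar.map_add_eq_mul, h1, h2]
    rw [hJbot] at hmem
    exact sub_eq_zero.1 (by simpa using hmem)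
  -- the number of the characters
  obtain ⟨χ, hχ⟩ : ∃ χ : Aˣ → A → ℂ, ∀ u x, χ u x = ψ (((u⁻¹ : Aˣ) : A) ^ 2 * x) :=
    ⟨_, fun _ _ => rfl⟩
  have hrange : Nat.card (Set.range χ) ≤ Module.finrank ℂ W := by
    have hlin : LinearIndependent ℂ fun c : Set.range χ => ρ (tD (Classical.choose c.2)) w := by
      refine ORB.indep (V := A) (fun x => ρ (nU x)) (fun c : Set.range χ => (c : A → ℂ)) Subtype.val_injective
        _ (fun c => hne _) ?_
      intro c x
      rw [heig]
      congr 1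
      have h1 := congrFun (Classical.choose_spec c.2) x
      exact (hχ _ _).symm.trans h1
    have : Fintype (Set.range χ) := Fintype.ofFinite _
    rw [Nat.card_eq_fintype_card]
    exact hlin.fintype_card_le_finrank
  have hfib : ∀ c : Set.range χ, Nat.card {u : Aˣ // χ u = c} ≤ Nat.card {u : A // u ^ 2 = 1} := by
    rintro ⟨c, v, hv⟩
    refine Nat.card_le_card_of_injective (fun u : {u : Aˣ // χ u = c} =>
      (⟨((u.1⁻¹ * v : Aˣ) : A), ?_⟩ : {u : A // u ^ 2 = 1})) ?_
    · have h1 := hsq u.1 v (by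
        intro x
        have h2 : χ u.1 x = χ v x := by rw [u.2, hv]
        rwa [hχ, hχ] at h2)
      have h3 : ((v⁻¹ : Aˣ) : A) * (v : A) = 1 := v.inv_mul
      calc ((u.1⁻¹ * v : Aˣ) : A) ^ 2 = ((u.1⁻¹ : Aˣ) : A) ^ 2 * (v : A) ^ 2 := by
            push_cast
            ring
        _ = (((v⁻¹ : Aˣ) : A) * (v : A)) ^ 2 := by rw [h1]; ring
        _ = 1 := by rw [h3, one_pow]
    · intro u u' h
      have h1 := congrArg Subtype.val h
      have h2 : u.1⁻¹ * v = u'.1⁻¹ * v := Units.ext h1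
      have h3 := mul_right_cancel h2
      exact Subtype.ext (inv_injective h3)
  have hcard : Nat.card Aˣ = ∑ᶠ c : Set.range χ, Nat.card {u : Aˣ // χ u = c} := by
    have e : Aˣ ≃ (c : Set.range χ) × {u : Aˣ // χ u = c} :=
      { toFun := fun u => ⟨⟨χ u, u, rfl⟩, u, rfl⟩
        invFun := fun p => p.2.1
        left_inv := fun u => rfl
        right_inv := by
          rintro ⟨⟨c, hc⟩, u, hu⟩
          obtain rfl : χ u = c := hu
          rfl }
    have : Fintype (Set.range χ) := Fintype.ofFinite _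
    rw [Nat.card_congr e, Nat.card_sigma, finsum_eq_sum_of_fintype]
  have : Fintype (Set.range χ) := Fintype.ofFinite _
  rw [hcard, finsum_eq_sum_of_fintype]
  refine (Finset.sum_le_card_nsmul _ _ _ fun c _ => hfib c).trans ?_
  rw [smul_eq_mul, Finset.card_univ, ← Nat.card_eq_fintype_card, mul_comm]
  exact Nat.mul_le_mul_left _ hrange

end Pool.Agent.T2h77W
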