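import Pool.Agent.T2h77W.Stm
import Pool.Agent.T2h77.Gen

/-!
# A character of the unipotent group in a representation of exact level
-/

set_option autoImplicit false
set_option linter.unusedSectionVars false

open Matrix
open scoped MatrixGroups

noncomputable section

namespace Pool.Agent.T2h77W

open Pool.Agent.T2h77 Pool.Agent.T2h77.Ind

namespace PRM

variable {A : Type} [CommRing A] [Finite A] {W : Type} [AddCommGroup W] [Module ℂ W]
  (ρ : SL(2, A) →* (W →ₗ[ℂ] W))

/-- the projector on the vectors fixed by `nU x`, `x ∈ I` -/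
def mI (I : Ideal A) : W →ₗ[ℂ] W :=
  let _ := Fintype.ofFinite I
  ((Nat.card I : ℂ)⁻¹) • ∑ x : I, ρ (nU (x : A))

lemma nU_mI (I : Ideal A) {y : A} (hy : y ∈ I) : ρ (nU y) * mI ρ I = mI ρ I := by
  let _ := Fintype.ofFinite I
  unfold mI
  rw [mul_smul_comm, Finset.mul_sum]
  congr 1
  refine Fintype.sum_equiv (Equiv.addLeft (⟨y, hy⟩ : I)) _ _ fun x => ?_
  rw [← map_mul, nU_mul]
  rfl

lemma card_ne (I : Ideal A) : (Nat.card I : ℂ) ≠ 0 := by
  have : 0 < Nat.card I := Nat.card_pos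
  exact_mod_cast this.ne'

lemma mI_apply (I : Ideal A) (w : W) [Fintype I] :
    mI ρ I w = ((Nat.card I : ℂ)⁻¹) • ∑ x : I, ρ (nU (x : A)) w := by
  unfold mI
  rw [LinearMap.smul_apply, LinearMap.sum_apply]
  congr 1
  refine Finset.sum_congr ?_ fun _ _ => rfl
  ext
  simp

lemma mI_fix (I : Ideal A) {w : W} (h : ∀ x ∈ I, ρ (nU x) w = w) : mI ρ I w = w := by
  let _ := Fintype.ofFinite I
  rw [mI_apply, Finset.sum_congr rfl fun (x : I) _ => h x x.2, Finset.sum_const, Finset.card_univ,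
    ← Nat.card_eq_fintype_card, ← Nat.cast_smul_eq_nsmul ℂ, smul_smul, inv_mul_cancel₀ (card_ne I), one_smul]

lemma fix_of (I : Ideal A) {w : W} (h : mI ρ I w = w) {x : A} (hx : x ∈ I) : ρ (nU x) w = w := by
  have h1 := LinearMap.congr_fun (nU_mI ρ I hx) w
  change ρ (nU x) (mI ρ I w) = mI ρ I w at h1
  rwa [h] at h1

lemma mI_mI (I : Ideal A) (w : W) : mI ρ I (mI ρ I w) = mI ρ I w := by
  apply mI_fix
  intro x hx
  exact LinearMap.congr_fun (nU_mI ρ I hx) w

lemma comm_mI (I : Ideal A) (T : W →ₗ[ℂ] W) (h : ∀ x ∈ I, ∀ w, T (ρ (nU x) w) = ρ (nU x) (T w)) (w : W) :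
    T (mI ρ I w) = mI ρ I (T w) := by
  let _ := Fintype.ofFinite I
  rw [mI_apply, mI_apply, map_smul, map_sum]
  congr 1
  exact Finset.sum_congr rfl fun x _ => h x x.2 w

lemma nU_comm (x y : A) (w : W) : ρ (nU x) (ρ (nU y) w) = ρ (nU y) (ρ (nU x) w) := by
  have h : ρ (nU x) * ρ (nU y) = ρ (nU y) * ρ (nU x) := by
    rw [← map_mul, ← map_mul, nU_mul, nU_mul, add_comm]
  exact LinearMap.congr_fun h w

/-- the projector on the eigenspace of the character `ψ` -/
def pr [Fintype A] (ψ : AddChar A ℂ) (w : W) : W :=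
  ((Fintype.card A : ℂ)⁻¹) • ∑ x : A, ψ (-x) • ρ (nU x) w

lemma pr_eig [Fintype A] (ψ : AddChar A ℂ) (w : W) (y : A) : ρ (nU y) (pr ρ ψ w) = ψ y • pr ρ ψ w := by
  have h : ρ (nU y) (∑ x : A, ψ (-x) • ρ (nU x) w) = ψ y • ∑ x : A, ψ (-x) • ρ (nU x) w := by
    rw [map_sum, Finset.smul_sum]
    refine Fintype.sum_equiv (Equiv.addLeft y) (fun x => ρ (nU y) (ψ (-x) • ρ (nU x) w))
      (fun x => ψ y • ψ (-x) • ρ (nU x) w) fun x => ?_
    have h1 : ρ (nU y) (ρ (nU x) w) = ρ (nU (y + x)) w := by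
      rw [← nU_mul, map_mul]
      rfl
    rw [map_smul, h1, Equiv.coe_addLeft, smul_smul, ← AddChar.map_add_eq_mul]
    congr 2
    ring
  unfold pr
  rw [map_smul, h, smul_comm]

lemma sum_pr [Fintype A] (w : W) : ∑ ψ : AddChar A ℂ, pr ρ ψ w = w := by
  classical
  unfold pr
  rw [← Finset.smul_sum, Finset.sum_comm]
  have h1 : ∀ x : A, ∑ ψ : AddChar A ℂ, ψ (-x) • ρ (nU x) w =
      if x = 0 then (Fintype.card A : ℂ) • w else 0 := by
    intro x
    rw [← Finset.sum_smul, AddChar.sum_apply_eq_ite]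
    by_cases hx : x = 0
    · rw [if_pos (by rw [hx, neg_zero]), if_pos hx, hx, nU_zero, map_one]
      rfl
    · rw [if_neg (by rwa [neg_eq_zero]), if_neg hx, zero_smul]
  rw [Finset.sum_congr rfl fun x _ => h1 x, Finset.sum_ite_eq' Finset.univ (0 : A), if_pos (Finset.mem_univ _),
    smul_smul, inv_mul_cancel₀, one_smul]
  exact Nat.cast_ne_zero.2 Fintype.card_ne_zero

lemma pr_zero_of [Fintype A] (I : Ideal A) (ψ : AddChar A ℂ) {w : W} (h : mI ρ I w = 0)
    (hψ : ∀ x ∈ I, ψ x = 1) : pr ρ ψ w = 0 := by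
  have h1 : mI ρ I (pr ρ ψ w) = pr ρ ψ w := by
    apply mI_fix
    intro x hx
    rw [pr_eig, hψ x hx, one_smul]
  have h2 : mI ρ I (pr ρ ψ w) = pr ρ ψ (mI ρ I w) := by
    unfold pr
    rw [map_smul, map_sum]
    congr 1
    refine Finset.sum_congr rfl fun x _ => ?_
    rw [map_smul]
    congr 1
    exact (comm_mI ρ I (ρ (nU x)) (fun y _ w => nU_comm ρ x y w) w).symm
  rw [← h1, h2, h]
  unfold pr
  simp

end PRM

open PRM in
theorem t_prm : S_prm := by
  classical
  intro A _ _ W _ _ _ ρ hW hirr hlev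
  -- some conjugate moves a given vector
  have h1 : ∀ (w : W), w ≠ 0 → ∀ T : Ideal A, T ≠ ⊥ →
      ∃ (g : SL(2, A)) (x : A), x ∈ T ∧ ρ (nU x) (ρ g w) ≠ ρ g w := by
    intro w hw T hT
    by_contra hcon
    push Not at hcon
    obtain ⟨U, hU⟩ : ∃ U : Submodule ℂ W, ∀ u, u ∈ U ↔ ∀ (g : SL(2, A)) (x : A), x ∈ T →
        ρ (nU x) (ρ g u) = ρ g u := by
      refine ⟨⟨⟨⟨{u | ∀ (g : SL(2, A)) (x : A), x ∈ T → ρ (nU x) (ρ g u) = ρ g u}, ?_⟩, ?_⟩, ?_⟩, fun u => Iff.rfl⟩
      · intro a b ha hb g x hx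
        rw [map_add, map_add, ha g x hx, hb g x hx]
      · intro g x hx
        rw [map_zero, map_zero]
      · intro c a ha g x hx
        rw [map_smul, map_smul, ha g x hx]
    have hUinv : ∀ g, ∀ u ∈ U, ρ g u ∈ U := by
      intro g u hu
      rw [hU] at hu ⊢
      intro g' x hx
      have e : ρ g' (ρ g u) = ρ (g' * g) u := by
        rw [map_mul]
        rfl
      rw [e]
      exact hu _ x hx
    have hUne : U ≠ ⊥ := by
      intro h
      have : w ∈ U := (hU w).2 fun g x hx => hcon g x hx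
      rw [h] at this
      exact hw (by simpa using this)
    have hUtop := (hirr U hUinv).resolve_left hUne
    have hone : ∀ (g : SL(2, A)) (x : A), x ∈ T → ρ (g * nU x * g⁻¹) = 1 := by
      intro g x hx
      apply LinearMap.ext
      intro u
      have h2 : ρ g⁻¹ u ∈ U := by
        rw [hUtop]
        exact Submodule.mem_top
      have h3 := (hU _).1 h2 1 x hx
      rw [map_one] at h3
      change ρ (nU x) (ρ g⁻¹ u) = ρ g⁻¹ u at h3
      rw [map_mul, map_mul]
      change ρ g (ρ (nU x) (ρ g⁻¹ u)) = u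
      rw [h3]
      have h4 : ρ g * ρ g⁻¹ = 1 := by rw [← map_mul, mul_inv_cancel, map_one]
      exact LinearMap.congr_fun h4 u
    obtain ⟨H, hH⟩ : ∃ H : Subgroup SL(2, A), ∀ h, h ∈ H ↔ ρ h = 1 := by
      refine ⟨⟨⟨⟨{h | ρ h = 1}, ?_⟩, ?_⟩, ?_⟩, fun h => Iff.rfl⟩
      · intro a b ha hb
        change ρ (a * b) = 1
        rw [map_mul, show ρ a = 1 from ha, show ρ b = 1 from hb, one_mul]
      · exact map_one ρ
      · intro a ha
        change ρ a⁻¹ = 1
        have h4 : ρ a⁻¹ * ρ a = 1 := by rw [← map_mul, inv_mul_cancel, map_one]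
        rwa [show ρ a = 1 from ha, mul_one] at h4
    have hker := gen A T H fun g x hx => (hH _).2 (hone g x hx)
    obtain ⟨g, hg, hg1⟩ := hlev T hT
    exact hg1 ((hH g).1 (hker hg))
  -- induction over sets of maximal ideals
  have h3 : ∀ S : Finset (MaximalSpectrum A), (∀ P ∈ S, Submodule.annihilator P.asIdeal ≠ ⊥) →
      ∃ w : W, w ≠ 0 ∧ ∀ P ∈ S, mI ρ (Submodule.annihilator P.asIdeal) w = 0 := by
    intro S
    induction S using Finset.induction_on with
    | empty =>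
      intro _
      obtain ⟨w, hw⟩ := exists_ne (0 : W)
      exact ⟨w, hw, fun P hP => absurd hP (Finset.notMem_empty P)⟩
    | insert P S hPS ih =>
      intro hS
      obtain ⟨w, hw, hwS⟩ := ih fun Q hQ => hS Q (Finset.mem_insert_of_mem hQ)
      obtain ⟨g₀, x, hx, hgx⟩ := h1 w hw _ (hS P (Finset.mem_insert_self P S))
      obtain ⟨k, hk⟩ := crt fun Q : MaximalSpectrum A => if Q = P then g₀⁻¹ else 1
      have hkP : k * nU x * k⁻¹ = g₀⁻¹ * nU x * g₀ := by
        have h4 := conj_congr P.asIdeal x hx k g₀⁻¹ (by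
          intro i j
          have := hk P i j
          simpa using this)
        rwa [inv_inv] at h4
      have hkQ : ∀ Q ∈ S, ∀ y ∈ Submodule.annihilator Q.asIdeal, k⁻¹ * nU y = nU y * k⁻¹ := by
        intro Q hQ y hy
        have hne : Q ≠ P := fun h => hPS (h ▸ hQ)
        have h4 := conj_congr Q.asIdeal y hy k 1 (by
          intro i j
          have := hk Q i j
          simpa [hne] using this)
        rw [one_mul, inv_one, mul_one] at h4
        have h5 : k * nU y = nU y * k := by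
          calc k * nU y = (k * nU y * k⁻¹) * k := by group
            _ = nU y * k := by rw [h4]
        calc k⁻¹ * nU y = k⁻¹ * (nU y * k) * k⁻¹ := by group
          _ = k⁻¹ * (k * nU y) * k⁻¹ := by rw [h5]
          _ = nU y * k⁻¹ := by group
      have hv : ρ (nU x) (ρ k⁻¹ w) ≠ ρ k⁻¹ w := by
        intro h
        apply hgx
        have h5 : ρ (k * nU x * k⁻¹) w = w := by
          rw [map_mul, map_mul]
          change ρ k (ρ (nU x) (ρ k⁻¹ w)) = w
          rw [h]
          have h4 : ρ k * ρ k⁻¹ = 1 := by rw [← map_mul, mul_inv_cancel, map_one]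
          exact LinearMap.congr_fun h4 w
        rw [hkP] at h5
        have h6 : ρ g₀ (ρ (g₀⁻¹ * nU x * g₀) w) = ρ (nU x) (ρ g₀ w) := by
          have h7 : ρ g₀ * ρ (g₀⁻¹ * nU x * g₀) = ρ (nU x) * ρ g₀ := by
            rw [← map_mul, ← map_mul]
            congr 1
            group
          exact LinearMap.congr_fun h7 w
        rw [← h6, h5]
      obtain ⟨v, hvdef⟩ : ∃ v, v = ρ k⁻¹ w := ⟨_, rfl⟩
      rw [← hvdef] at hv
      obtain ⟨IP, hIP⟩ : ∃ IP, IP = Submodule.annihilator P.asIdeal := ⟨_, rfl⟩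
      rw [← hIP] at hx
      refine ⟨v - mI ρ IP v, ?_, ?_⟩
      · intro h
        exact hv (fix_of ρ IP (sub_eq_zero.1 h).symm hx)
      · intro Q hQ
        rcases Finset.mem_insert.1 hQ with rfl | hQ
        · rw [← hIP, map_sub, mI_mI, sub_self]
        · have e1 : mI ρ (Submodule.annihilator Q.asIdeal) v = 0 := by
            rw [hvdef, ← comm_mI ρ (Submodule.annihilator Q.asIdeal) (ρ k⁻¹), hwS Q hQ, map_zero]
            intro y hy u
            have h7 : ρ k⁻¹ * ρ (nU y) = ρ (nU y) * ρ k⁻¹ := by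
              rw [← map_mul, ← map_mul, hkQ Q hQ y hy]
            exact LinearMap.congr_fun h7 u
          have e2 : mI ρ (Submodule.annihilator Q.asIdeal) (mI ρ IP v) = 0 := by
            rw [comm_mI ρ IP (mI ρ (Submodule.annihilator Q.asIdeal)), e1, map_zero]
            intro y _ u
            exact (comm_mI ρ _ (ρ (nU y)) (fun z _ u => nU_comm ρ y z u) u).symm
          rw [map_sub, e1, e2, sub_zero]
  have hfin : Finite (MaximalSpectrum A) := inferInstance
  let _ := Fintype.ofFinite (MaximalSpectrum A)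
  let _ := Fintype.ofFinite A
  obtain ⟨w, hw, hwP⟩ := h3 (Finset.univ.filter fun P => Submodule.annihilator P.asIdeal ≠ ⊥)
    (fun P hP => (Finset.mem_filter.1 hP).2)
  obtain ⟨ψ, hψ⟩ : ∃ ψ : AddChar A ℂ, pr ρ ψ w ≠ 0 := by
    by_contra hcon
    push Not at hcon
    apply hw
    rw [← sum_pr ρ w]
    exact Finset.sum_eq_zero fun ψ _ => hcon ψ
  refine ⟨ψ, pr ρ ψ w, hψ, fun x => pr_eig ρ ψ w x, ?_⟩
  intro P hP
  by_contra hcon
  push Not at hcon
  exact hψ (pr_zero_of ρ _ ψ (hwP P (Finset.mem_filter.2 ⟨Finset.mem_univ _, hP⟩)) hcon)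

end Pool.Agent.T2h77W
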