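import Pool.Agent.T2h77W.Stm

/-! VFI: the span of the translates is finite dimensional and invariant. -/

set_option autoImplicit false

open NumberField MeasureTheory
open scoped MatrixGroups

noncomputable section

namespace Pool.Agent.T2h77W

open Pool.Agent.T2h77

theorem lm_mul' {K : Type} [Field K] [NumberField K] (γ δ : SL(2, 𝓞 K)) (g : GG K) :
    lm (γ * δ) g = lm γ (lm δ g) := by
  unfold lm
  rw [map_mul, mul_assoc]

theorem finite_range_of_factors {α β X : Type*} [Nonempty α] [Finite β] (π : α → β) (F : α → X)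
    (h : ∀ a b, π a = π b → F a = F b) : (Set.range F).Finite := by
  refine (Set.finite_range fun y : β => F (Function.invFun π y)).subset ?_
  rintro _ ⟨a, rfl⟩
  exact ⟨π a, h _ _ (Function.invFun_eq ⟨a, rfl⟩)⟩

/-- VFI. -/
theorem t_vfi : S_vfi := by
  intro K _ _ 𝔫 h𝔫 f hf
  have hnorm : (GaN 𝔫).Normal := MonoidHom.normal_ker _
  have hfin : Finite (𝓞 K ⧸ 𝔫) := Ideal.finiteQuotientOfFreeOfNeBot 𝔫 h𝔫
  have hfinS : Finite SL(2, 𝓞 K ⧸ 𝔫) := Pool.Agent.T2h77.Ind.finSL
  refine ⟨?_, ?_, ?_⟩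
  · apply FiniteDimensional.span_of_finite ℂ
    apply finite_range_of_factors (Matrix.SpecialLinearGroup.map (n := Fin 2) (Ideal.Quotient.mk 𝔫))
    intro γ γ' h
    funext g
    have h1 : γ * γ'⁻¹ ∈ GaN 𝔫 := by
      show Matrix.SpecialLinearGroup.map (n := Fin 2) (Ideal.Quotient.mk 𝔫) (γ * γ'⁻¹) = 1
      rw [map_mul, map_inv, h, mul_inv_cancel]
    have h2 := hf _ h1 (lm γ' g)
    rw [← lm_mul', inv_mul_cancel_right] at h2
    exact h2
  · intro γ φ hφ
    unfold Sp at hφ ⊢
    induction hφ using Submodule.span_induction with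
    | mem φ h =>
      obtain ⟨δ, rfl⟩ := h
      apply Submodule.subset_span
      refine ⟨δ * γ, ?_⟩
      funext g
      show f (lm (δ * γ) g) = f (lm δ (lm γ g))
      rw [lm_mul']
    | zero => exact Submodule.zero_mem _
    | add φ ψ _ _ h1 h2 => exact Submodule.add_mem _ h1 h2
    | smul a φ _ h1 => exact Submodule.smul_mem _ a h1
  · intro γ hγ φ hφ
    unfold Sp at hφ
    induction hφ using Submodule.span_induction with
    | mem φ h =>
      obtain ⟨δ, rfl⟩ := h
      intro g
      show f (lm δ (lm γ g)) = f (lm δ g)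
      have h1 : δ * γ * δ⁻¹ ∈ GaN 𝔫 := hnorm.conj_mem γ hγ δ
      have h2 := hf _ h1 (lm δ g)
      rw [← lm_mul', inv_mul_cancel_right, lm_mul'] at h2
      exact h2
    | zero => intro g; rfl
    | add φ ψ _ _ h1 h2 =>
      intro g
      show φ (lm γ g) + ψ (lm γ g) = φ g + ψ g
      rw [h1 g, h2 g]
    | smul a φ _ h1 =>
      intro g
      show a • φ (lm γ g) = a • φ g
      rw [h1 g]

end Pool.Agent.T2h77W
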