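import Pool.Agent.T2h77W.T_VFI

/-! VFO: the elements of the span of the translates are forms. -/

set_option autoImplicit false

open NumberField MeasureTheory
open scoped MatrixGroups

noncomputable section

namespace Pool.Agent.T2h77W

open Pool.Agent.T2h77 Pool.Agent.T2h74

/-- VFO. -/
theorem t_vfo : S_vfo := by
  intro K _ _ 𝔫 h𝔫 𝓕 N σ ν f hf φ hφ
  obtain ⟨hc, hinv, hty, hL⟩ := hf
  have hinv' := (t_vfi K 𝔫 h𝔫 f hinv).2.2
  have key : Continuous φ ∧ HasType N σ ν φ ∧ ∀ γ : SL(2, 𝓞 K), IsL2 𝓕 fun g => φ (lm γ g) := by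
    unfold Sp at hφ
    induction hφ using Submodule.span_induction with
    | mem φ h =>
      obtain ⟨δ, rfl⟩ := h
      refine ⟨?_, ?_, ?_⟩
      · apply hc.comp
        unfold lm
        exact continuous_const.mul continuous_id
      · intro Φ c hΦ hΦ' hc' g
        have h1 := hty Φ c hΦ hΦ' hc' (lm δ g)
        unfold lm at h1 ⊢
        simp only [mul_assoc] at h1 ⊢
        exact h1
      · intro γ
        have h1 := hL (δ * γ)
        simp only [lm_mul'] at h1
        exact h1
    | zero =>
      refine ⟨continuous_const, ?_, ?_⟩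
      · intro Φ c _ _ _ g
        simp
      · intro γ
        exact MemLp.zero
    | add φ ψ _ _ h1 h2 =>
      refine ⟨h1.1.add h2.1, ?_, ?_⟩
      · intro Φ c hΦ hΦ' hc' g
        have e1 := h1.2.1 Φ c hΦ hΦ' hc' g
        have e2 := h2.2.1 Φ c hΦ hΦ' hc' g
        have i1 : Integrable (fun h => Φ h * φ (g * h)) (mu K) := by
          apply Continuous.integrable_of_hasCompactSupport
          · exact hΦ.mul (h1.1.comp (continuous_const.mul continuous_id))
          · exact hΦ'.mul_right
        have i2 : Integrable (fun h => Φ h * ψ (g * h)) (mu K) := by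
          apply Continuous.integrable_of_hasCompactSupport
          · exact hΦ.mul (h2.1.comp (continuous_const.mul continuous_id))
          · exact hΦ'.mul_right
        simp only [Pi.add_apply, mul_add]
        rw [integral_add i1 i2, e1, e2]
      · intro γ
        exact (h1.2.2 γ).add (h2.2.2 γ)
    | smul a φ _ h1 =>
      refine ⟨h1.1.const_smul a, ?_, ?_⟩
      · intro Φ c hΦ hΦ' hc' g
        have e1 := h1.2.1 Φ c hΦ hΦ' hc' g
        simp only [Pi.smul_apply, smul_eq_mul]
        have e2 : ∀ h, Φ h * (a * φ (g * h)) = a * (Φ h * φ (g * h)) := fun h => by ring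
        simp only [e2]
        rw [integral_const_mul, e1]
        ring
      · intro γ
        exact (h1.2.2 γ).const_smul a
  exact ⟨key.1, fun γ hγ g => hinv' γ hγ φ hφ g, key.2.1, key.2.2⟩

end Pool.Agent.T2h77W
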