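import Pool.Agent.T2h77W.Stm

/-!
# The translates of a form: VSY

The elements of the span of the translates of an eigenform have the same system of eigenvalues.
-/

set_option autoImplicit false

open NumberField MeasureTheory
open scoped MatrixGroups

noncomputable section

namespace Pool.Agent.T2h77W

open Pool.Agent.T2h77 Pool.Agent.T2h77.Cnt Pool.Agent.T2h74

namespace Vsy

variable {K : Type} [Field K] [NumberField K]

theorem entries (y z : SL(2, 𝓞 K)) (X : Fin 2 → Fin 2 → K) (N : K → Prop)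
    (hadd : ∀ a b, N a → N b → N (a + b)) (hmul : ∀ (c : 𝓞 K) (x : K), N x → N ((c : K) * x))
    (hX : ∀ a b, N (X a b)) (i j : Fin 2) :
    N (((y i 0 : K) * X 0 0 + (y i 1 : K) * X 1 0) * (z 0 j : K) +
        ((y i 0 : K) * X 0 1 + (y i 1 : K) * X 1 1) * (z 1 j : K)) := by
  have e : ((y i 0 : K) * X 0 0 + (y i 1 : K) * X 1 0) * (z 0 j : K) +
        ((y i 0 : K) * X 0 1 + (y i 1 : K) * X 1 1) * (z 1 j : K) =
      (((y i 0 * z 0 j : 𝓞 K) : K) * X 0 0 + ((y i 1 * z 0 j : 𝓞 K) : K) * X 1 0) +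
        (((y i 0 * z 1 j : 𝓞 K) : K) * X 0 1 + ((y i 1 * z 1 j : 𝓞 K) : K) * X 1 1) := by
    simp only [cv_mul]
    ring
  rw [e]
  exact hadd _ _ (hadd _ _ (hmul _ _ (hX _ _)) (hmul _ _ (hX _ _)))
    (hadd _ _ (hmul _ _ (hX _ _)) (hmul _ _ (hX _ _)))

theorem mul_entries (y z : SL(2, 𝓞 K)) (η : SL(2, K)) (i j : Fin 2) :
    (oK K y * η * oK K z) i j =
      ((y i 0 : K) * η 0 0 + (y i 1 : K) * η 1 0) * (z 0 j : K) +
        ((y i 0 : K) * η 0 1 + (y i 1 : K) * η 1 1) * (z 1 j : K) := by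
  rw [Matrix.SpecialLinearGroup.coe_mul, Matrix.SpecialLinearGroup.coe_mul, Matrix.mul_apply,
    Fin.sum_univ_two, Matrix.mul_apply, Matrix.mul_apply, Fin.sum_univ_two, Fin.sum_univ_two]
  rfl

theorem Lk_conj {P : Ideal (𝓞 K)} {k : ℕ} (y z : SL(2, 𝓞 K)) {η : SL(2, K)} (h : η ∈ Lk P k) :
    oK K y * η * oK K z ∈ Lk P k := by
  intro i j
  rw [mul_entries]
  exact entries y z (fun a b => η a b) (fun x => x ∈ Fr P k ⊤) (fun a b ha hb => Fr_add ha hb)
    (fun c x hx => Fr_mul_left c hx) (fun a b => h a b) i j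

theorem GaP_conj {P 𝔫 : Ideal (𝓞 K)} (y : SL(2, 𝓞 K)) {η : SL(2, K)} (h : η ∈ GaP P 𝔫) :
    oK K y * η * oK K y⁻¹ ∈ GaP P 𝔫 := by
  intro i j
  have h1 := entries y y⁻¹ (fun a b => η a b - (1 : Matrix (Fin 2) (Fin 2) K) a b) (fun x => InFr P 𝔫 x)
    (fun a b ha hb => InFr.add ha hb) (fun c x hx => by
      obtain ⟨k, hk⟩ := hx
      exact ⟨k, Fr_mul_left c hk⟩) (fun a b => h a b) i j
  have h2 : (oK K y * 1 * oK K y⁻¹ : SL(2, K)) i j = (1 : Matrix (Fin 2) (Fin 2) K) i j := by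
    rw [map_inv, mul_one, mul_inv_cancel, Matrix.SpecialLinearGroup.coe_one]
  rw [mul_entries] at h2
  rw [mul_entries, ← h2]
  have e : ∀ a b : Fin 2, ((1 : SL(2, K)) a b) = (1 : Matrix (Fin 2) (Fin 2) K) a b := fun a b => by
    rw [Matrix.SpecialLinearGroup.coe_one]
  rw [e, e, e, e]
  convert h1 using 1
  ring

end Vsy

open Vsy

theorem t_vsy : S_vsy := by
  intro K _ _ 𝔫 h𝔫 c f hf φ hφ
  classical
  induction hφ using Submodule.span_induction with
  | mem x hx =>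
    obtain ⟨γ, rfl⟩ := hx
    intro P hP k s hs g
    set F : SL(2, K) → SL(2, K) := fun η => oK K γ * η * oK K γ⁻¹ with hF
    have hFinj : Function.Injective F := by
      intro a b h
      exact mul_left_cancel (mul_right_cancel h)
    have hs' : IsRepSet P (GaP P 𝔫) k (s.image F) := by
      refine ⟨?_, ?_⟩
      · intro y hy
        obtain ⟨η, hη, rfl⟩ := Finset.mem_image.1 hy
        exact ⟨GaP_conj γ (hs.1 η hη).1, Lk_conj γ γ⁻¹ (hs.1 η hη).2⟩
      · intro β hβ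
        have hβ' : oK K γ⁻¹ * β * oK K γ⁻¹⁻¹ ∈ GLk P (GaP P 𝔫) k :=
          ⟨GaP_conj γ⁻¹ hβ.1, Lk_conj γ⁻¹ γ⁻¹⁻¹ hβ.2⟩
        obtain ⟨η, ⟨h1, h2⟩, h3⟩ := hs.2 _ hβ'
        refine ⟨F η, ⟨Finset.mem_image_of_mem F h1, ?_⟩, ?_⟩
        · obtain ⟨δ, hδ⟩ := h2
          refine ⟨γ * δ * γ⁻¹, ?_⟩
          have h4 : β = oK K γ * (oK K γ⁻¹ * β * oK K γ⁻¹⁻¹) * oK K γ⁻¹ := by
            simp only [map_inv]
            group
          rw [h4, hδ, hF]
          simp only [map_mul, map_inv]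
          group
        · rintro y ⟨hy, hy'⟩
          obtain ⟨η', hη', rfl⟩ := Finset.mem_image.1 hy
          obtain ⟨δ, hδ⟩ := hy'
          rw [h3 η' ⟨hη', γ⁻¹ * δ * γ, ?_⟩]
          rw [hδ, hF]
          simp only [map_mul, map_inv]
          group
    have h1 := hf P hP k (s.image F) hs' (lm γ g)
    rw [Finset.sum_image fun a _ b _ h => hFinj h] at h1
    rw [← h1]
    refine Finset.sum_congr rfl fun η _ => ?_
    have h2 : lm γ (jo K η * g) = jo K (F η) * lm γ g := by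
      have e1 : ∀ δ : SL(2, 𝓞 K), jo K (oK K δ) = io K δ := fun δ => rfl
      change io K γ * (jo K η * g) = jo K (oK K γ * η * oK K γ⁻¹) * (io K γ * g)
      rw [map_mul, map_mul, e1, e1, map_inv]
      group
    change f (lm γ (jo K η * g)) = f (jo K (F η) * lm γ g)
    rw [h2]
  | zero =>
    intro P hP k s hs g
    simp
  | add x y _ _ hx hy =>
    intro P hP k s hs g
    have h1 := hx P hP k s hs g
    have h2 := hy P hP k s hs g
    simp only [Pi.add_apply, Finset.sum_add_distrib]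
    rw [h1, h2, mul_add]
  | smul a x _ hx =>
    intro P hP k s hs g
    have h1 := hx P hP k s hs g
    simp only [Pi.smul_apply, smul_eq_mul, ← Finset.mul_sum]
    rw [h1]
    ring

end Pool.Agent.T2h77W
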