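import Pool.Agent.T2h77W.AllP
import Pool.Agent.T2h77W.T_PRM
import Pool.Agent.T2h77W.T_ORB
import Pool.Agent.T2h77W.T_IRR
import Pool.Agent.T2h77W.T_VFI
import Pool.Agent.T2h77W.T_VFO
import Pool.Agent.T2h77W.T_VSY
import Pool.Agent.T2h77W.T_CGP
import Pool.Agent.T2h77W.T_COS
import Pool.Agent.T2h77W.T_FDM
import Pool.Agent.T2h77W.T_IDX
import Pool.Agent.T2h77W.T_IND
import Pool.Agent.T2h77W.T_LVL
import Pool.Agent.T2h77W.T_CNT
import Pool.Agent.T2h77W.T_ASM

/-!
# Systems of Hecke eigenvalues of principal level: the theorem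
-/

set_option autoImplicit false

open NumberField MeasureTheory
open scoped MatrixGroups

namespace Pool.Agent.T2h77W

open Pool.Agent.T2h77

theorem top (K : Type) [Field K] [NumberField K] : S_main K :=
  t_asm (t_irr t_prm t_orb) t_vfi t_vfo t_vsy (t_lvl t_ind t_fdm t_cgp t_cos t_idx allP) (t_cnt t_idx) sdiv K

end Pool.Agent.T2h77W
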